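import Pool.Agent.Helper88.AC.Join

set_option autoImplicit false

namespace Pool.Agent.Helper88.AC

open Encodable Filter
open Nat.Partrec (Code)
open Nat.Partrec.Code
open Pool.Agent.Helper90.Sol

variable {A : Set ℕ} {a : ℕ → List ℕ} {p : ℕ → ℕ} {h : ℕ → ℕ → ℕ} {u : Code}

theorem ev_A (hmono : ∀ s, a s ⊆ a (s + 1)) (hAs : ∀ x, x ∈ A ↔ ∃ s, x ∈ a s) (x : ℕ) :
    ∀ᶠ s in atTop, (mem a s x).toNat = chr A x := by
  by_cases hx : x ∈ A
  · obtain ⟨t, ht⟩ := (hAs x).1 hx
    filter_upwards [eventually_ge_atTop t] with s hs
    rw [chr_of hx, mem_iff.2 (amono hmono hs ht)]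
    rfl
  · refine Eventually.of_forall fun s => ?_
    rw [chr_of_not hx]
    cases hm : mem a s x with
    | false => rfl
    | true => exact absurd ((hAs x).2 ⟨s, mem_iff.1 hm⟩) hx

theorem ev_B {bS : ℕ → ℕ → Bool} (hbs : ∀ x s, bS x s = true ↔ ∃ n < s, Adm a h p u x n)
    (x : ℕ) : ∀ᶠ s in atTop, (bS x s).toNat = chr (BB a h p u) x := by
  by_cases hx : x ∈ BB a h p u
  · obtain ⟨t, ht⟩ := id hx
    filter_upwards [eventually_ge_atTop (t + 1)] with s hs
    rw [chr_of hx, (hbs x s).2 ⟨t, hs, ht⟩]
    rfl
  · refine Eventually.of_forall fun s => ?_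
    rw [chr_of_not hx]
    cases hm : bS x s with
    | false => rfl
    | true =>
      obtain ⟨n, -, hn⟩ := (hbs x s).1 hm
      exact absurd ⟨n, hn⟩ hx

theorem ent_even {bS : ℕ → ℕ → Bool} {s : ℕ} {σ : List ℕ} {n : ℕ} (hn : n % 2 = 0) :
    ent bS s σ n = (bS (n / 2) s).toNat := by
  unfold ent
  rw [decide_eq_true hn]
  rfl

theorem ent_odd {bS : ℕ → ℕ → Bool} {s : ℕ} {σ : List ℕ} {n : ℕ} (hn : ¬ n % 2 = 0) :
    ent bS s σ n = σ.getD (n / 2) 0 := by
  unfold ent
  rw [decide_eq_false hn]
  rfl

/-- The anticupping property of the constructed set. -/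
theorem BB_anti (ha : Computable a) (hmono : ∀ s, a s ⊆ a (s + 1))
    (hAs : ∀ x, x ∈ A ↔ ∃ s, x ∈ a s) (hh : Dominates A h) {bS : ℕ → ℕ → Bool}
    (hbS : Computable₂ bS) (hbs : ∀ x s, bS x s = true ↔ ∃ n < s, Adm a h p u x n)
    {C : Set ℕ} (hC : Red C A) (hAC : Red A (join (BB a h p u) C)) : Red A C := by
  set B : Set ℕ := BB a h p u with hB
  obtain ⟨c, -, hsound, hcomp⟩ := exists_functional (chr (join B C)) (chr A) hAC
  obtain ⟨R, hR1, hR2⟩ := exists_R (chr (join B C)) (chr A) hcomp
  have hRA : TuringReducible (fun n => Part.some (R n)) (fun n => Part.some (chr A n)) :=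
    hR1.trans (red_join (BB_red ha hmono hAs hbS hbs) hC)
  obtain ⟨z0, hz0⟩ := hh.dom R hRA
  have hs0 : ∃ s0, ∀ y < z0, y ∈ A → y ∈ a s0 := by
    clear hz0
    induction z0 with
    | zero => exact ⟨0, fun y hy => absurd hy (Nat.not_lt_zero y)⟩
    | succ n ih =>
      obtain ⟨s1, hs1⟩ := ih
      by_cases hn : n ∈ A
      · obtain ⟨t, ht⟩ := (hAs n).1 hn
        refine ⟨max s1 t, fun y hy hyA => ?_⟩
        rcases Nat.lt_succ_iff_lt_or_eq.1 hy with h1 | h1
        · exact amono hmono (le_max_left _ _) (hs1 y h1 hyA)
        · rw [h1]; exact amono hmono (le_max_right _ _) ht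
      · refine ⟨s1, fun y hy hyA => ?_⟩
        rcases Nat.lt_succ_iff_lt_or_eq.1 hy with h1 | h1
        · exact hs1 y h1 hyA
        · rw [h1] at hyA; exact absurd hyA hn
  obtain ⟨s0, hs0⟩ := hs0
  -- the search
  let Φ : ℕ × ℕ × List ℕ → Option ℕ := fun z =>
    cond (decide (z.1 < z0)) (some ((seg (chr A) z0).getD z.1 0))
      (cond (good a h bS c z0 s0 z.1 z.2.1 z.2.2) (some (mem a z.2.1 z.1).toNat) none)
  have hΦ : Computable Φ := by
    have i1 : Computable (fun z : ℕ × ℕ × List ℕ => decide (z.1 < z0)) :=
      Computable₂.comp (f := fun x y : ℕ => decide (x < y)) Primrec.nat_lt.decide.to_comp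
        Computable.fst (Computable.const z0)
    have i2 : Computable (fun z : ℕ × ℕ × List ℕ => some ((seg (chr A) z0).getD z.1 0)) :=
      Computable.option_some.comp (Computable₂.comp (f := fun (l : List ℕ) (n : ℕ) =>
        l.getD n 0) (Primrec.list_getD 0).to_comp (Computable.const (seg (chr A) z0))
        Computable.fst)
    have i3 : Computable (fun z : ℕ × ℕ × List ℕ => some (mem a z.2.1 z.1).toNat) :=
      Computable.option_some.comp (toNat_comp (Computable₂.comp (f := mem a) (mem_comp ha)
        (Computable.fst.comp Computable.snd) Computable.fst))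
    exact Computable.cond i1 i2 (Computable.cond (good_comp ha hh.comp hbS c z0 s0) i3
      (Computable.const none))
  refine red_of_search (chr C) Φ hΦ (fun z => ?_) fun z s v hv => ?_
  · -- existence
    by_cases hz : z < z0
    · refine ⟨0, ?_⟩
      simp only [Φ]
      rw [decide_eq_true hz]
      rfl
    have hok : ∀ z' ≤ z, z0 ≤ z' → ∀ᶠ s in atTop, okk a h bS c z' s (seg (chr C) s) = true := by
      intro z' _ hz'
      obtain ⟨k, hk, hk'⟩ := hR2 z'
      obtain ⟨t, ht⟩ := hz0 z' hz'
      have hent : ∀ᶠ s in atTop, ∀ n ∈ Finset.range k,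
          ent bS s (seg (chr C) s) n = chr (join B C) n := by
        rw [Filter.eventually_all_finset]
        intro n _
        rw [chr_join]
        by_cases hn : n % 2 = 0
        · filter_upwards [ev_B hbs (n / 2)] with s hs
          rw [ent_even hn, if_pos hn, hs]
        · filter_upwards [eventually_gt_atTop (n / 2)] with s hs
          rw [ent_odd hn, if_neg hn, seg_getD _ hs]
      filter_upwards [hent, eventually_ge_atTop t, eventually_ge_atTop (R z'),
        ev_A hmono hAs z'] with s h1 h2 h3 h4
      have h5 : R z' ≤ min (h z' s) s := le_min (ht.trans (hh.mono_right z' h2)) h3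
      obtain ⟨v, hv⟩ := Option.isSome_iff_exists.1 hk'
      have h6 : v = chr A z' := hsound k z' v (evaln_sound hv)
      refine bEx_iff.2 ⟨k, lt_of_lt_of_le hk h5, ?_⟩
      rw [decide_eq_true_eq, h4, ← h6,
        seg_congr (g := ent bS s (seg (chr C) s)) (g' := chr (join B C))
          fun n hn => h1 n (Finset.mem_range.2 hn)]
      exact evaln_mono h5 hv
    have hall : ∀ᶠ s in atTop, ∀ z' ∈ Finset.range (z + 1), z0 ≤ z' →
        okk a h bS c z' s (seg (chr C) s) = true := by
      rw [Filter.eventually_all_finset]
      intro z' hz'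
      by_cases h1 : z0 ≤ z'
      · filter_upwards [hok z' (by rw [Finset.mem_range] at hz'; omega) h1] with s hs _
        exact hs
      · exact Eventually.of_forall fun s h2 => absurd h2 h1
    obtain ⟨s, hs1, hs2⟩ := (hall.and (eventually_ge_atTop s0)).exists
    refine ⟨s, ?_⟩
    have hg : good a h bS c z0 s0 z s (seg (chr C) s) = true :=
      good_iff.2 ⟨hs2, fun z' h1 h2 => hs1 z' (Finset.mem_range.2 (by omega)) h2⟩
    simp only [Φ]
    rw [decide_eq_false hz, hg]
    rfl
  · -- soundness
    by_cases hz : z < z0
    · simp only [Φ] at hv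
      rw [decide_eq_true hz] at hv
      have h1 : (seg (chr A) z0).getD z 0 = v := Option.some.inj hv
      rw [← h1, seg_getD _ hz]
    simp only [Φ] at hv
    rw [decide_eq_false hz] at hv
    cases hg : good a h bS c z0 s0 z s (seg (chr C) s) with
    | false => rw [hg] at hv; exact absurd hv (by simp)
    | true =>
      rw [hg] at hv
      have hv' : (mem a s z).toNat = v := Option.some.inj hv
      obtain ⟨hs, hgood⟩ := good_iff.1 hg
      have key : ∀ y, z0 ≤ y → y ≤ z → y ∈ A → y ∈ a s := by
        intro y
        induction y using Nat.strong_induction_on with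
        | _ y0 ih =>
          intro hy1 hy2 hyA
          by_contra hcon
          have h1 := hgood y0 hy2 hy1
          obtain ⟨k, hk, hk'⟩ := bEx_iff.1 h1
          rw [decide_eq_true_eq] at hk'
          have hm : mem a s y0 = false := by
            cases hm : mem a s y0 with
            | false => rfl
            | true => exact absurd (mem_iff.1 hm) hcon
          rw [hm] at hk'
          have hdiff : ∃ n < k, ent bS s (seg (chr C) s) n ≠ chr (join B C) n := by
            by_contra hc
            push Not at hc
            rw [seg_congr hc] at hk'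
            have h2 := hsound k y0 _ (evaln_sound hk')
            rw [chr_of hyA] at h2
            exact absurd h2 (by simp)
          obtain ⟨n, hn, hne⟩ := hdiff
          have hks : k < s := lt_of_lt_of_le hk (min_le_right _ _)
          have hkh : k < h y0 s := lt_of_lt_of_le hk (min_le_left _ _)
          rw [chr_join] at hne
          by_cases hn2 : n % 2 = 0
          · rw [ent_even hn2, if_pos hn2] at hne
            have hxB : n / 2 ∈ B ∧ bS (n / 2) s = false := by
              cases hb : bS (n / 2) s with
              | true =>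
                exfalso
                obtain ⟨m, -, hm⟩ := (hbs _ _).1 hb
                have hmB : n / 2 ∈ B := ⟨m, hm⟩
                rw [hb, chr_of hmB] at hne
                exact hne rfl
              | false =>
                refine ⟨?_, rfl⟩
                by_contra hc
                rw [hb, chr_of_not hc] at hne
                exact hne rfl
            obtain ⟨⟨T, hT⟩, hb⟩ := hxB
            obtain ⟨e1, e2, e3⟩ := adm_y hAs hT
            have hTs : s ≤ T := by
              by_contra hc
              rw [(hbs _ _).2 ⟨T, not_le.1 hc, hT⟩] at hb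
              exact absurd hb (by simp)
            set y := (n / 2).unpair.2.unpair.1 with hy
            have e4 : h y T < h y0 T := by
              calc h y T ≤ n / 2 := e3
                _ ≤ n := Nat.div_le_self _ _
                _ < k := hn
                _ < h y0 s := hkh
                _ ≤ h y0 T := hh.mono_right y0 hTs
            have e5 : y < y0 := by
              by_contra hc
              exact absurd (hh.mono_left T (not_lt.1 hc)) (not_le.2 e4)
            have e6 : y ∉ a s := fun h2 => e2 (amono hmono hTs h2)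
            have e7 : z0 ≤ y := by
              by_contra hc
              exact e6 (amono hmono hs (hs0 y (not_le.1 hc) e1))
            exact e6 (ih y e5 e7 (by omega) e1)
          · rw [ent_odd hn2, if_neg hn2, seg_getD _ (by omega)] at hne
            exact hne rfl
      rw [← hv']
      by_cases hzA : z ∈ A
      · rw [chr_of hzA, mem_iff.2 (key z (by omega) le_rfl hzA)]
        rfl
      · rw [chr_of_not hzA]
        cases hm : mem a s z with
        | false => rfl
        | true => exact absurd ((hAs z).2 ⟨s, mem_iff.1 hm⟩) hzA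

/-- The main theorem, with a dominating function. -/
theorem main {A : Set ℕ} (hA : PromptlySimple A) {h : ℕ → ℕ → ℕ} (hh : Dominates A h) :
    ∃ B : Set ℕ, REPred (fun n => n ∈ B) ∧ ¬ ComputablePred (fun n => n ∈ B) ∧ Red B A ∧
      ∀ C : Set ℕ, Red C A → Red A (join B C) → Red A C := by
  obtain ⟨hinf, a, p, ha, hp, hmono, hAs, hps⟩ := hA
  obtain ⟨u, hu⟩ := exists_u ha hh.comp
  obtain ⟨bS, hbS, hbs⟩ := exists_bS ha hh.comp hp hu
  exact ⟨BB a h p u, BB_re hbS hbs, BB_not_computable hAs hinf hh.bdd hu hps,
    BB_red ha hmono hAs hbS hbs, fun C hC hAC => BB_anti ha hmono hAs hh hbS hbs hC hAC⟩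

end Pool.Agent.Helper88.AC
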