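import Mathlib
import Pool.Agent.Helper90.Sol.Use

set_option autoImplicit false

namespace Pool.Agent.Helper88.AC

open Encodable
open Nat.Partrec (Code)
open Nat.Partrec.Code
open Pool.Agent.Helper90.Sol

/-- Bounded existence. -/
def bEx (n : ℕ) (f : ℕ → Bool) : Bool := Nat.rec false (fun i b => b || f i) n

/-- Bounded universality. -/
def bAll (n : ℕ) (f : ℕ → Bool) : Bool := Nat.rec true (fun i b => b && f i) n

/-- Bounded supremum. -/
def bSup (n : ℕ) (f : ℕ → ℕ) : ℕ := Nat.rec 0 (fun i b => max b (f i)) n

theorem bEx_iff {n : ℕ} {f : ℕ → Bool} : bEx n f = true ↔ ∃ i < n, f i = true := by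
  induction n with
  | zero => simp [bEx]
  | succ n ih =>
    have h : bEx (n + 1) f = (bEx n f || f n) := rfl
    rw [h, Bool.or_eq_true, ih]
    constructor
    · rintro (⟨i, h1, h2⟩ | h1)
      · exact ⟨i, by omega, h2⟩
      · exact ⟨n, by omega, h1⟩
    · rintro ⟨i, h1, h2⟩
      rcases Nat.lt_succ_iff_lt_or_eq.1 h1 with h3 | h3
      · exact Or.inl ⟨i, h3, h2⟩
      · subst h3; exact Or.inr h2

theorem bAll_iff {n : ℕ} {f : ℕ → Bool} : bAll n f = true ↔ ∀ i < n, f i = true := by
  induction n with
  | zero => simp [bAll]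
  | succ n ih =>
    have h : bAll (n + 1) f = (bAll n f && f n) := rfl
    rw [h, Bool.and_eq_true, ih]
    constructor
    · rintro ⟨h1, h2⟩ i hi
      rcases Nat.lt_succ_iff_lt_or_eq.1 hi with h3 | h3
      · exact h1 i h3
      · subst h3; exact h2
    · intro h1
      exact ⟨fun i hi => h1 i (by omega), h1 n (by omega)⟩

theorem bSup_succ (n : ℕ) (f : ℕ → ℕ) : bSup (n + 1) f = max (bSup n f) (f n) := rfl

theorem le_bSup {n : ℕ} {f : ℕ → ℕ} {i : ℕ} (hi : i < n) : f i ≤ bSup n f := by
  induction n with
  | zero => omega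
  | succ n ih =>
    rw [bSup_succ]
    rcases Nat.lt_succ_iff_lt_or_eq.1 hi with h3 | h3
    · exact (ih h3).trans (le_max_left _ _)
    · subst h3; exact le_max_right _ _

theorem bSup_le {n : ℕ} {f : ℕ → ℕ} {b : ℕ} (h : ∀ i < n, f i ≤ b) : bSup n f ≤ b := by
  induction n with
  | zero => exact Nat.zero_le _
  | succ n ih =>
    rw [bSup_succ]
    exact max_le (ih fun i hi => h i (by omega)) (h n (by omega))

section Comp

variable {α : Type*} [Primcodable α]

theorem bEx_comp {n : α → ℕ} {f : α → ℕ → Bool} (hn : Computable n) (hf : Computable₂ f) :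
    Computable fun a => bEx (n a) (f a) := by
  have h : Computable₂ (fun (a : α) (p : ℕ × Bool) => p.2 || f a p.1) :=
    Primrec.or.to_comp.comp (Computable.snd.comp Computable.snd)
      (hf.comp Computable.fst (Computable.fst.comp Computable.snd))
  exact Computable.nat_rec hn (Computable.const false) h

theorem bAll_comp {n : α → ℕ} {f : α → ℕ → Bool} (hn : Computable n) (hf : Computable₂ f) :
    Computable fun a => bAll (n a) (f a) := by
  have h : Computable₂ (fun (a : α) (p : ℕ × Bool) => p.2 && f a p.1) :=
    Primrec.and.to_comp.comp (Computable.snd.comp Computable.snd)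
      (hf.comp Computable.fst (Computable.fst.comp Computable.snd))
  exact Computable.nat_rec hn (Computable.const true) h

theorem bSup_comp {n : α → ℕ} {f : α → ℕ → ℕ} (hn : Computable n) (hf : Computable₂ f) :
    Computable fun a => bSup (n a) (f a) := by
  have h : Computable₂ (fun (a : α) (p : ℕ × ℕ) => max p.2 (f a p.1)) :=
    Primrec.nat_max.to_comp.comp (Computable.snd.comp Computable.snd)
      (hf.comp Computable.fst (Computable.fst.comp Computable.snd))
  exact Computable.nat_rec hn (Computable.const 0) h

theorem seg_comp {g : α → ℕ → ℕ} {k : α → ℕ} (hg : Computable₂ g) (hk : Computable k) :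
    Computable fun a => seg (g a) (k a) := by
  have h : Computable₂ (fun (a : α) (p : ℕ × List ℕ) => p.2 ++ [g a p.1]) :=
    Computable.list_concat.comp (Computable.snd.comp Computable.snd)
      (hg.comp Computable.fst (Computable.fst.comp Computable.snd))
  refine (Computable.nat_rec hk (Computable.const []) h).of_eq fun a => ?_
  induction k a with
  | zero => rfl
  | succ n ih =>
    rw [seg_succ, ← ih]

end Comp

/-- Search with an oracle. -/
theorem red_find (g : ℕ → ℕ) (Φ : ℕ × ℕ × List ℕ → Option ℕ) (hΦ : Computable Φ)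
    (hex : ∀ m, ∃ k, (Φ (m, k, seg g k)).isSome = true) :
    TuringReducible (fun m => Part.some ((Φ (m, Nat.find (hex m),
      seg g (Nat.find (hex m)))).getD 0)) (fun m => Part.some (g m)) := by
  refine RecursiveIn.iff_nat.2 ?_
  set O : Set (ℕ →. ℕ) := {(fun m => Part.some (g m) : ℕ →. ℕ)} with hO
  have hK : Computable (fun p : ℕ => p.unpair.2) := Computable.snd.comp Computable.unpair
  have hΦ' : Computable (fun z : ℕ × List ℕ => Φ (z.1.unpair.1, z.1.unpair.2, z.2)) :=
    hΦ.comp (Computable.pair (Computable.fst.comp (Computable.unpair.comp Computable.fst))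
      (Computable.pair (Computable.snd.comp (Computable.unpair.comp Computable.fst))
        Computable.snd))
  have h1 : Nat.RecursiveIn O (fun p => Part.some
      (if (Φ (p.unpair.1, p.unpair.2, seg g p.unpair.2)).isSome then 0 else 1)) := by
    have h := reducible_of_seg g _ hK
      (fun z => if (Φ (z.1.unpair.1, z.1.unpair.2, z.2)).isSome then 0 else 1) (by
        refine (Computable.cond (c := fun z : ℕ × List ℕ =>
          (Φ (z.1.unpair.1, z.1.unpair.2, z.2)).isSome) ?_ (Computable.const 0)
          (Computable.const 1)).of_eq fun z => ?_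
        · exact Primrec.option_isSome.to_comp.comp hΦ'
        · cases (Φ (z.1.unpair.1, z.1.unpair.2, z.2)).isSome <;> rfl)
    exact RecursiveIn.iff_nat.1 h
  have h2 : Nat.RecursiveIn O (fun p => Part.some
      ((Φ (p.unpair.1, p.unpair.2, seg g p.unpair.2)).getD 0)) := by
    have h := reducible_of_seg g _ hK
      (fun z => (Φ (z.1.unpair.1, z.1.unpair.2, z.2)).getD 0)
      (Primrec.option_getD.to_comp.comp hΦ' (Computable.const 0))
    exact RecursiveIn.iff_nat.1 h
  have h3 : Nat.RecursiveIn O (fun m => Part.some (Nat.find (hex m))) := by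
    refine (Nat.RecursiveIn.rfind h1).of_eq fun m => ?_
    rw [Part.eq_some_iff, Nat.mem_rfind]
    constructor
    · have := Nat.find_spec (hex m)
      simp [this]
    · intro k hk
      have := Nat.find_min (hex m) hk
      simp [this]
  have hid : Nat.RecursiveIn O (fun m => Part.some m) :=
    Nat.Partrec.recursiveIn (Partrec.nat_iff.1 (Computable.id (α := ℕ)))
  refine (Nat.RecursiveIn.comp h2 (Nat.RecursiveIn.pair hid h3)).of_eq fun m => ?_
  simp [Seq.seq]

end Pool.Agent.Helper88.AC
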