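import Pool.Agent.Helper88.AC.Defs

set_option autoImplicit false

namespace Pool.Agent.Helper88.AC

open Encodable
open Nat.Partrec (Code)
open Nat.Partrec.Code
open Pool.Agent.Helper90.Sol

/-- Membership in a stage. -/
def mem (a : ℕ → List ℕ) (s y : ℕ) : Bool := decide ((a s).idxOf y < (a s).length)

theorem mem_iff {a : ℕ → List ℕ} {s y : ℕ} : mem a s y = true ↔ y ∈ a s := by
  unfold mem
  rw [decide_eq_true_eq, List.idxOf_lt_length_iff]

theorem mem_comp {a : ℕ → List ℕ} (ha : Computable a) : Computable₂ (mem a) := by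
  have h1 : Computable (fun z : ℕ × ℕ => (a z.1).idxOf z.2) :=
    Primrec.list_idxOf.to_comp.comp Computable.snd (ha.comp Computable.fst)
  have h2 : Computable (fun z : ℕ × ℕ => (a z.1).length) :=
    Computable.list_length.comp (ha.comp Computable.fst)
  exact (Primrec.nat_lt.decide.to_comp.comp h1 h2)

/-- Triples. -/
def tri (e y j : ℕ) : ℕ := Nat.pair e (Nat.pair y j)

/-- The condition at stage `n`. -/
def cnd (a : ℕ → List ℕ) (h : ℕ → ℕ → ℕ) (e y n : ℕ) : Bool :=
  decide (evaln n (Denumerable.ofNat Code e) (tri e y n.unpair.2) = some 0) &&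
    (decide (h y n ≤ n.unpair.2) && !(mem a n y))

theorem cnd_comp {a : ℕ → List ℕ} {h : ℕ → ℕ → ℕ} (ha : Computable a) (hh : Computable₂ h) :
    Computable (fun z : (ℕ × ℕ) × ℕ => cnd a h z.1.1 z.1.2 z.2) := by
  have i1 : Computable (fun z : (ℕ × ℕ) × ℕ => z.1.1) := Computable.fst.comp Computable.fst
  have i2 : Computable (fun z : (ℕ × ℕ) × ℕ => z.1.2) := Computable.snd.comp Computable.fst
  have i3 : Computable (fun z : (ℕ × ℕ) × ℕ => z.2) := Computable.snd
  have i4 : Computable (fun z : (ℕ × ℕ) × ℕ => z.2.unpair.2) :=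
    Computable.snd.comp (Computable.unpair.comp i3)
  have h1 : Computable (fun z : (ℕ × ℕ) × ℕ => tri z.1.1 z.1.2 z.2.unpair.2) :=
    Primrec₂.natPair.to_comp.comp i1 (Primrec₂.natPair.to_comp.comp i2 i4)
  have h2 : Computable (fun z : (ℕ × ℕ) × ℕ => evaln z.2 (Denumerable.ofNat Code z.1.1)
      (tri z.1.1 z.1.2 z.2.unpair.2)) :=
    primrec_evaln.to_comp.comp (((i3).pair ((Computable.ofNat Code).comp i1)).pair h1)
  have h3 : Computable (fun z : (ℕ × ℕ) × ℕ => decide (evaln z.2 (Denumerable.ofNat Code z.1.1)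
      (tri z.1.1 z.1.2 z.2.unpair.2) = some 0)) :=
    Primrec.eq.decide.to_comp.comp h2 (Computable.const (some 0))
  have h4 : Computable (fun z : (ℕ × ℕ) × ℕ => decide (h z.1.2 z.2 ≤ z.2.unpair.2)) :=
    Primrec.nat_le.decide.to_comp.comp (hh.comp i2 i3) i4
  have h5 : Computable (fun z : (ℕ × ℕ) × ℕ => !(mem a z.2 z.1.2)) :=
    Primrec.not.to_comp.comp ((mem_comp ha).comp i3 i2)
  exact Primrec.and.to_comp.comp h3 (Primrec.and.to_comp.comp h4 h5)

theorem cnd_iff {a : ℕ → List ℕ} {h : ℕ → ℕ → ℕ} {e y n : ℕ} : cnd a h e y n = true ↔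
    evaln n (Denumerable.ofNat Code e) (tri e y n.unpair.2) = some 0 ∧ h y n ≤ n.unpair.2 ∧
      y ∉ a n := by
  unfold cnd
  rw [Bool.and_eq_true, Bool.and_eq_true, decide_eq_true_eq, decide_eq_true_eq,
    Bool.not_eq_true', ← Bool.not_eq_true, mem_iff]

/-- The stage of the request. -/
def Tm (a : ℕ → List ℕ) (h : ℕ → ℕ → ℕ) (e y : ℕ) : Part ℕ :=
  Nat.rfind fun n => Part.some (cnd a h e y n)

theorem Tm_spec {a : ℕ → List ℕ} {h : ℕ → ℕ → ℕ} {e y n : ℕ} : n ∈ Tm a h e y ↔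
    cnd a h e y n = true ∧ ∀ m < n, cnd a h e y m = false := by
  unfold Tm
  rw [Nat.mem_rfind]
  constructor
  · rintro ⟨h1, h2⟩
    exact ⟨(Part.mem_some_iff.1 h1).symm, fun m hm => (Part.mem_some_iff.1 (h2 hm)).symm⟩
  · rintro ⟨h1, h2⟩
    exact ⟨Part.mem_some_iff.2 h1.symm, fun {m} hm => Part.mem_some_iff.2 (h2 m hm).symm⟩

theorem Tm_dom {a : ℕ → List ℕ} {h : ℕ → ℕ → ℕ} {e y n : ℕ} (hn : cnd a h e y n = true) :
    (Tm a h e y).Dom := by
  unfold Tm
  rw [Nat.rfind_dom']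
  exact ⟨n, Part.mem_some_iff.2 hn.symm, fun _ => trivial⟩

theorem exists_u {a : ℕ → List ℕ} {h : ℕ → ℕ → ℕ} (ha : Computable a) (hh : Computable₂ h) :
    ∃ u : Code, ∀ e y, eval (curry u e) y = Tm a h e y := by
  have h1 : Partrec (fun z : ℕ => Tm a h z.unpair.1 z.unpair.2) := by
    refine Partrec.rfind (α := ℕ) (p := fun z n => Part.some (cnd a h z.unpair.1 z.unpair.2 n)) ?_
    exact ((cnd_comp ha hh).comp (Computable.pair
      (Computable.unpair.comp Computable.fst) Computable.snd)).partrec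
  obtain ⟨u, hu⟩ := exists_code.1 (Partrec.nat_iff.1 h1)
  refine ⟨u, fun e y => ?_⟩
  rw [eval_curry, hu]
  simp

/-- Granted requests. -/
def grantP (a : ℕ → List ℕ) (p : ℕ → ℕ) (u : Code) (e y : ℕ) : Part Bool :=
  (Nat.rfind fun t => Part.some (evaln (t + 1) (curry u e) y).isSome).map
    fun t => mem a (p t) y

/-- Bounded request. -/
def tb (a : ℕ → List ℕ) (h : ℕ → ℕ → ℕ) (x s : ℕ) : Bool :=
  bEx s fun n => cnd a h x.unpair.1 x.unpair.2.unpair.1 n &&
    (bAll n (fun m => !(cnd a h x.unpair.1 x.unpair.2.unpair.1 m)) &&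
      decide (n.unpair.2 = x.unpair.2.unpair.2))

theorem tb_iff {a : ℕ → List ℕ} {h : ℕ → ℕ → ℕ} {x s : ℕ} : tb a h x s = true ↔
    ∃ n < s, n ∈ Tm a h x.unpair.1 x.unpair.2.unpair.1 ∧ n.unpair.2 = x.unpair.2.unpair.2 := by
  unfold tb
  rw [bEx_iff]
  refine exists_congr fun n => and_congr_right fun _ => ?_
  rw [Bool.and_eq_true, Bool.and_eq_true, bAll_iff, decide_eq_true_eq, Tm_spec]
  simp only [Bool.not_eq_true']
  tauto

theorem tb_comp {a : ℕ → List ℕ} {h : ℕ → ℕ → ℕ} (ha : Computable a) (hh : Computable₂ h) :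
    Computable₂ (tb a h) := by
  have hc := cnd_comp ha hh
  have j1 : Computable (fun z : (ℕ × ℕ) × ℕ => z.1.1.unpair.1) :=
    Computable.fst.comp (Computable.unpair.comp (Computable.fst.comp Computable.fst))
  have j2 : Computable (fun z : (ℕ × ℕ) × ℕ => z.1.1.unpair.2.unpair.1) :=
    Computable.fst.comp (Computable.unpair.comp (Computable.snd.comp
      (Computable.unpair.comp (Computable.fst.comp Computable.fst))))
  have j3 : Computable (fun z : (ℕ × ℕ) × ℕ => z.1.1.unpair.2.unpair.2) :=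
    Computable.snd.comp (Computable.unpair.comp (Computable.snd.comp
      (Computable.unpair.comp (Computable.fst.comp Computable.fst))))
  have k1 : Computable (fun z : (ℕ × ℕ) × ℕ =>
      cnd a h z.1.1.unpair.1 z.1.1.unpair.2.unpair.1 z.2) :=
    Computable.comp (f := fun z : (ℕ × ℕ) × ℕ => cnd a h z.1.1 z.1.2 z.2)
      (g := fun z : (ℕ × ℕ) × ℕ => ((z.1.1.unpair.1, z.1.1.unpair.2.unpair.1), z.2)) hc
      (Computable.pair (Computable.pair j1 j2) Computable.snd)
  have k2 : Computable (fun z : ((ℕ × ℕ) × ℕ) × ℕ =>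
      cnd a h z.1.1.1.unpair.1 z.1.1.1.unpair.2.unpair.1 z.2) :=
    Computable.comp (f := fun z : (ℕ × ℕ) × ℕ => cnd a h z.1.1 z.1.2 z.2)
      (g := fun z : ((ℕ × ℕ) × ℕ) × ℕ =>
        ((z.1.1.1.unpair.1, z.1.1.1.unpair.2.unpair.1), z.2)) hc
      (Computable.pair (Computable.pair (j1.comp Computable.fst) (j2.comp Computable.fst))
        Computable.snd)
  have k3 : Computable₂ (fun (z : (ℕ × ℕ) × ℕ) (m : ℕ) =>
      !(cnd a h z.1.1.unpair.1 z.1.1.unpair.2.unpair.1 m)) :=
    Computable.comp (f := not) (g := fun z : ((ℕ × ℕ) × ℕ) × ℕ =>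
      cnd a h z.1.1.1.unpair.1 z.1.1.1.unpair.2.unpair.1 z.2) Primrec.not.to_comp k2
  have k4 : Computable (fun z : (ℕ × ℕ) × ℕ => bAll z.2 (fun m =>
      !(cnd a h z.1.1.unpair.1 z.1.1.unpair.2.unpair.1 m))) :=
    bAll_comp (α := (ℕ × ℕ) × ℕ) (n := fun z => z.2) (f := fun z m =>
      !(cnd a h z.1.1.unpair.1 z.1.1.unpair.2.unpair.1 m)) Computable.snd k3
  have k5 : Computable (fun z : (ℕ × ℕ) × ℕ => decide (z.2.unpair.2 = z.1.1.unpair.2.unpair.2)) :=
    Computable₂.comp (f := fun b c : ℕ => decide (b = c)) Primrec.eq.decide.to_comp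
      (Computable.snd.comp (Computable.unpair.comp Computable.snd)) j3
  have k6 : Computable (fun z : (ℕ × ℕ) × ℕ =>
      cnd a h z.1.1.unpair.1 z.1.1.unpair.2.unpair.1 z.2 &&
        (bAll z.2 (fun m => !(cnd a h z.1.1.unpair.1 z.1.1.unpair.2.unpair.1 m)) &&
          decide (z.2.unpair.2 = z.1.1.unpair.2.unpair.2))) :=
    Computable₂.comp (f := and) Primrec.and.to_comp k1
      (Computable₂.comp (f := and) Primrec.and.to_comp k4 k5)
  have k7 : Computable₂ (fun (z : ℕ × ℕ) (n : ℕ) =>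
      cnd a h z.1.unpair.1 z.1.unpair.2.unpair.1 n &&
        (bAll n (fun m => !(cnd a h z.1.unpair.1 z.1.unpair.2.unpair.1 m)) &&
          decide (n.unpair.2 = z.1.unpair.2.unpair.2))) := k6
  have k8 := bEx_comp (α := ℕ × ℕ) (n := fun z => z.2) Computable.snd k7
  exact k8

/-- The stages of the constructed set, as a partial function. -/
def bSP (a : ℕ → List ℕ) (h : ℕ → ℕ → ℕ) (p : ℕ → ℕ) (u : Code) (x s : ℕ) : Part Bool :=
  cond (tb a h x s) (grantP a p u x.unpair.1 x.unpair.2.unpair.1) (Part.some false)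

theorem bSP_part {a : ℕ → List ℕ} {h : ℕ → ℕ → ℕ} {p : ℕ → ℕ} (ha : Computable a)
    (hh : Computable₂ h) (hp : Computable p) (u : Code) : Partrec₂ (bSP a h p u) := by
  refine Partrec.cond (tb_comp ha hh) ?_ (Computable.const false).partrec
  have j1 : Computable (fun z : ℕ × ℕ => z.1.unpair.1) :=
    Computable.fst.comp (Computable.unpair.comp Computable.fst)
  have j2 : Computable (fun z : ℕ × ℕ => z.1.unpair.2.unpair.1) :=
    Computable.fst.comp (Computable.unpair.comp (Computable.snd.comp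
      (Computable.unpair.comp Computable.fst)))
  refine Partrec.map (Partrec.rfind (α := ℕ × ℕ) (p := fun z t =>
    Part.some (evaln (t + 1) (curry u z.1.unpair.1) z.1.unpair.2.unpair.1).isSome) ?_) ?_
  · refine Computable.partrec (Primrec.option_isSome.to_comp.comp
      (primrec_evaln.to_comp.comp (Computable.pair (Computable.pair
        (Computable.succ.comp Computable.snd) (primrec₂_curry.to_comp.comp
          (Computable.const u) (j1.comp Computable.fst))) (j2.comp Computable.fst))))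
  · exact (mem_comp ha).comp (hp.comp Computable.snd) (j2.comp Computable.fst)

theorem mem_grantP {a : ℕ → List ℕ} {p : ℕ → ℕ} {u : Code} {e y : ℕ} {b : Bool} :
    b ∈ grantP a p u e y ↔ ∃ t, EntersAt (curry u e) t y ∧ mem a (p t) y = b := by
  unfold grantP
  rw [Part.mem_map_iff]
  refine exists_congr fun t => and_congr_left fun _ => ?_
  rw [Nat.mem_rfind]
  constructor
  · rintro ⟨h1, h2⟩
    refine ⟨(Part.mem_some_iff.1 h1).symm, ?_⟩
    rcases Nat.eq_zero_or_pos t with h0 | h0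
    · subst h0
      simp [evaln]
    · have := (Part.mem_some_iff.1 (h2 (m := t - 1) (by omega))).symm
      rwa [Nat.sub_add_cancel h0] at this
  · rintro ⟨h1, h2⟩
    refine ⟨Part.mem_some_iff.2 h1.symm, fun {m} hm => Part.mem_some_iff.2 ?_⟩
    by_contra hcon
    have h3 : (evaln (m + 1) (curry u e) y).isSome = true := by
      cases h : (evaln (m + 1) (curry u e) y).isSome
      · exact absurd h.symm hcon
      · rfl
    obtain ⟨v, hv⟩ := Option.isSome_iff_exists.1 h3
    have h4 : v ∈ evaln t (curry u e) y := evaln_mono (by omega) hv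
    rw [Option.mem_def] at h4
    rw [h4] at h2
    exact absurd h2 (by simp)

theorem entersAt_unique {c : Code} {s t y : ℕ} (h1 : EntersAt c s y) (h2 : EntersAt c t y) :
    s = t := by
  have key : ∀ {s t : ℕ}, EntersAt c s y → EntersAt c t y → ¬ s < t := by
    intro s t h1 h2 hlt
    obtain ⟨v, hv⟩ := Option.isSome_iff_exists.1 h1.1
    have h4 : v ∈ evaln t c y := evaln_mono (by omega) hv
    rw [Option.mem_def] at h4
    have h5 := h2.2
    rw [h4] at h5
    exact absurd h5 (by simp)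
  rcases Nat.lt_trichotomy s t with h | h | h
  · exact absurd h (key h1 h2)
  · exact h
  · exact absurd h (key h2 h1)

theorem exists_entersAt {c : Code} {y : ℕ} (h : (eval c y).Dom) : ∃ t, EntersAt c t y := by
  classical
  obtain ⟨v, hv⟩ := Part.dom_iff_mem.1 h
  obtain ⟨k, hk⟩ := evaln_complete.1 hv
  have hex : ∃ k, (evaln k c y).isSome = true := ⟨k, Option.isSome_iff_exists.2 ⟨v, hk⟩⟩
  have h1 := Nat.find_spec hex
  have h0 : Nat.find hex ≠ 0 := by
    intro h0
    rw [h0] at h1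
    simp [evaln] at h1
  obtain ⟨t, ht⟩ := Nat.exists_eq_succ_of_ne_zero h0
  refine ⟨t, ?_, ?_⟩
  · rw [ht] at h1; exact h1
  · have h2 := Nat.find_min hex (m := t) (by omega)
    simpa using h2

theorem bSP_dom {a : ℕ → List ℕ} {h : ℕ → ℕ → ℕ} {p : ℕ → ℕ} {u : Code}
    (hu : ∀ e y, eval (curry u e) y = Tm a h e y) (x s : ℕ) : (bSP a h p u x s).Dom := by
  unfold bSP
  cases ht : tb a h x s with
  | false => exact trivial
  | true =>
    obtain ⟨n, -, hn, -⟩ := tb_iff.1 ht
    have h1 : (eval (curry u x.unpair.1) x.unpair.2.unpair.1).Dom := by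
      rw [hu]
      exact Part.dom_iff_mem.2 ⟨n, hn⟩
    obtain ⟨t, h2⟩ := exists_entersAt h1
    exact Part.dom_iff_mem.2 ⟨_, mem_grantP.2 ⟨t, h2, rfl⟩⟩

/-- Admission of the element `x` at stage `n`. -/
def Adm (a : ℕ → List ℕ) (h : ℕ → ℕ → ℕ) (p : ℕ → ℕ) (u : Code) (x n : ℕ) : Prop :=
  n ∈ Tm a h x.unpair.1 x.unpair.2.unpair.1 ∧ n.unpair.2 = x.unpair.2.unpair.2 ∧
    ∃ t, EntersAt (curry u x.unpair.1) t x.unpair.2.unpair.1 ∧ x.unpair.2.unpair.1 ∈ a (p t)

theorem mem_bSP {a : ℕ → List ℕ} {h : ℕ → ℕ → ℕ} {p : ℕ → ℕ} {u : Code} {x s : ℕ} :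
    true ∈ bSP a h p u x s ↔ ∃ n < s, Adm a h p u x n := by
  unfold bSP
  cases ht : tb a h x s with
  | false =>
    constructor
    · intro h1
      have := Part.mem_some_iff.1 h1
      exact absurd this (by simp)
    · rintro ⟨n, h1, h2, h3, -⟩
      rw [tb_iff.2 ⟨n, h1, h2, h3⟩] at ht
      exact absurd ht (by simp)
  | true =>
    obtain ⟨n, h1, h2, h3⟩ := tb_iff.1 ht
    change true ∈ grantP a p u x.unpair.1 x.unpair.2.unpair.1 ↔ _
    rw [mem_grantP]
    constructor
    · rintro ⟨t, h4, h5⟩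
      exact ⟨n, h1, h2, h3, t, h4, mem_iff.1 h5⟩
    · rintro ⟨n', -, -, -, t, h4, h5⟩
      exact ⟨t, h4, mem_iff.2 h5⟩

/-- The stages of the constructed set. -/
theorem exists_bS {a : ℕ → List ℕ} {h : ℕ → ℕ → ℕ} {p : ℕ → ℕ} (ha : Computable a)
    (hh : Computable₂ h) (hp : Computable p) {u : Code}
    (hu : ∀ e y, eval (curry u e) y = Tm a h e y) :
    ∃ bS : ℕ → ℕ → Bool, Computable₂ bS ∧ ∀ x s, bS x s = true ↔ ∃ n < s, Adm a h p u x n := by
  refine ⟨fun x s => (bSP a h p u x s).get (bSP_dom hu x s), ?_, fun x s => ?_⟩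
  · refine Partrec.of_eq_tot (bSP_part ha hh hp u) fun z => ?_
    exact Part.get_mem _
  · rw [← mem_bSP (a := a) (h := h) (p := p) (u := u)]
    exact Part.get_eq_iff_mem _

end Pool.Agent.Helper88.AC
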