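import Pool.Agent.Helper88.AC.Base

set_option autoImplicit false

namespace Pool.Agent.Helper88.AC

open Encodable
open Nat.Partrec (Code)
open Nat.Partrec.Code
open Pool.Agent.Helper90.Sol

/-- The characteristic function of a set of natural numbers. -/
noncomputable def chr (A : Set ℕ) (n : ℕ) : ℕ := by
  classical exact if n ∈ A then 1 else 0

/-- Turing reducibility `A ≤ B` of sets of natural numbers: Mathlib's relation, for the
characteristic functions. -/
def Red (A B : Set ℕ) : Prop :=
  TuringReducible (fun n => Part.some (chr A n)) (fun n => Part.some (chr B n))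

/-- The join: `A` on the even numbers and `B` on the odd numbers. -/
def join (A B : Set ℕ) : Set ℕ := {n | (n % 2 = 0 ∧ n / 2 ∈ A) ∨ (n % 2 = 1 ∧ n / 2 ∈ B)}

/-- The set `W_c` enumerated by the machine with code `c`. -/
def W (c : Code) : Set ℕ := {x | (eval c x).Dom}

/-- The number `x` enters `W_c` exactly at stage `s + 1` of the standard enumeration
(`x` is in `W_{c,s}` when the computation of `c` on `x` halts with bound `s`). -/
def EntersAt (c : Code) (s x : ℕ) : Prop :=
  (evaln (s + 1) c x).isSome = true ∧ (evaln s c x).isSome = false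

/-- Promptly simple sets. -/
def PromptlySimple (A : Set ℕ) : Prop :=
  (Aᶜ).Infinite ∧
  ∃ (a : ℕ → List ℕ) (p : ℕ → ℕ), Computable a ∧ Computable p ∧
    (∀ s, a s ⊆ a (s + 1)) ∧ (∀ x, x ∈ A ↔ ∃ s, x ∈ a s) ∧
    ∀ c : Code, (W c).Infinite → ∃ s x, EntersAt c s x ∧ x ∈ a (p s)

/-- The Turing jump: the codes of machines which halt on some initial segment of the
characteristic function of `A`. -/
def jump (A : Set ℕ) : Set ℕ :=
  {n | ∃ k, (eval (Denumerable.ofNat Code n) (encode ((List.range k).map (chr A)))).Dom}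

/-- Low₂ sets: the second jump is reducible to the second jump of the empty set. -/
def LowTwo (A : Set ℕ) : Prop := Red (jump (jump A)) (jump (jump ∅))

/-- The anticupping property of the degree of `A`. -/
def Anticupping (A : Set ℕ) : Prop :=
  ∃ B : Set ℕ, REPred (fun n => n ∈ B) ∧ ¬ ComputablePred (fun n => n ∈ B) ∧
    Red B A ∧ ¬ Red A B ∧
    ∀ C : Set ℕ, REPred (fun n => n ∈ C) → Red C A → ¬ Red A C → ¬ Red A (join B C)

theorem chr_one {A : Set ℕ} {n : ℕ} : chr A n = 1 ↔ n ∈ A := by
  unfold chr; split_ifs with h <;> simp [h]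

theorem chr_zero {A : Set ℕ} {n : ℕ} : chr A n = 0 ↔ n ∉ A := by
  unfold chr; split_ifs with h <;> simp [h]

theorem chr_of {A : Set ℕ} {n : ℕ} (h : n ∈ A) : chr A n = 1 := chr_one.2 h

theorem chr_of_not {A : Set ℕ} {n : ℕ} (h : n ∉ A) : chr A n = 0 := chr_zero.2 h

theorem Red.trans {A B C : Set ℕ} (h1 : Red A B) (h2 : Red B C) : Red A C :=
  TuringReducible.trans h1 h2

theorem Red.refl (A : Set ℕ) : Red A A := TuringReducible.refl _

theorem chr_join (A B : Set ℕ) (n : ℕ) :
    chr (join A B) n = if n % 2 = 0 then chr A (n / 2) else chr B (n / 2) := by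
  by_cases h : n % 2 = 0
  · rw [if_pos h]
    by_cases h1 : n / 2 ∈ A
    · rw [chr_of h1]; exact chr_of (Or.inl ⟨h, h1⟩)
    · rw [chr_of_not h1]
      refine chr_of_not ?_
      rintro (⟨-, h2⟩ | ⟨h2, -⟩)
      · exact h1 h2
      · omega
  · rw [if_neg h]
    have h' : n % 2 = 1 := by omega
    by_cases h1 : n / 2 ∈ B
    · rw [chr_of h1]; exact chr_of (Or.inr ⟨h', h1⟩)
    · rw [chr_of_not h1]
      refine chr_of_not ?_
      rintro (⟨h2, -⟩ | ⟨-, h2⟩)
      · omega
      · exact h1 h2

/-- The join is a least upper bound: one half. -/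
theorem red_join {A B C : Set ℕ} (h1 : Red A C) (h2 : Red B C) : Red (join A B) C := by
  have h1' := RecursiveIn.iff_nat.1 h1
  have h2' := RecursiveIn.iff_nat.1 h2
  refine RecursiveIn.iff_nat.2 ?_
  set O : Set (ℕ →. ℕ) := {(fun m => Part.some (chr C m) : ℕ →. ℕ)} with hO
  have toR : ∀ {f : ℕ → ℕ}, Computable f → Nat.RecursiveIn O (fun n => Part.some (f n)) := by
    intro f hf
    exact Nat.Partrec.recursiveIn (Partrec.nat_iff.1 hf)
  have hd : Nat.RecursiveIn O (fun n => Part.some (n / 2)) :=
    toR (Primrec.nat_div.to_comp.comp Computable.id (Computable.const 2))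
  have e1 : Nat.RecursiveIn O (fun n => Part.some (chr A (n / 2))) :=
    (Nat.RecursiveIn.comp h1' hd).of_eq fun n => by simp
  have e2 : Nat.RecursiveIn O (fun n => Part.some (chr B (n / 2))) :=
    (Nat.RecursiveIn.comp h2' hd).of_eq fun n => by simp
  have hid : Nat.RecursiveIn O (fun m => Part.some m) := toR Computable.id
  have hf : Computable (fun z : ℕ => if z.unpair.1 % 2 = 0 then z.unpair.2.unpair.1
      else z.unpair.2.unpair.2) := by
    have hu : Computable (fun z : ℕ => z.unpair.2) := Computable.snd.comp Computable.unpair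
    have hc : Computable (fun z : ℕ => decide (z.unpair.1 % 2 = 0)) :=
      (Primrec.eq.comp (Primrec.nat_mod.comp (Primrec.fst.comp Primrec.unpair)
        (Primrec.const 2)) (Primrec.const 0)).decide.to_comp
    refine (Computable.cond hc (Computable.fst.comp (Computable.unpair.comp hu))
      (Computable.snd.comp (Computable.unpair.comp hu))).of_eq fun z => ?_
    by_cases h : z.unpair.1 % 2 = 0 <;> simp [h]
  refine (Nat.RecursiveIn.comp (toR hf) (Nat.RecursiveIn.pair hid
    (Nat.RecursiveIn.pair e1 e2))).of_eq fun n => ?_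
  rw [chr_join]
  simp [Seq.seq]

/-- Search with an oracle, for sets. -/
theorem red_of_search {A : Set ℕ} (g : ℕ → ℕ) (Φ : ℕ × ℕ × List ℕ → Option ℕ)
    (hΦ : Computable Φ) (hex : ∀ m, ∃ k, (Φ (m, k, seg g k)).isSome = true)
    (hs : ∀ m k v, Φ (m, k, seg g k) = some v → v = chr A m) :
    TuringReducible (fun m => Part.some (chr A m)) (fun m => Part.some (g m)) := by
  have h := red_find g Φ hΦ hex
  have e : (fun m => Part.some ((Φ (m, Nat.find (hex m), seg g (Nat.find (hex m)))).getD 0)) =
      (fun m => Part.some (chr A m) : ℕ →. ℕ) := by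
    funext m
    congr 1
    have h1 := Nat.find_spec (hex m)
    obtain ⟨v, hv⟩ := Option.isSome_iff_exists.1 h1
    rw [hv]
    exact hs m _ v hv
  rw [e] at h
  exact h

/-- A code for the functional of a reduction. -/
theorem exists_functional (g f : ℕ → ℕ)
    (h : TuringReducible (fun m => Part.some (f m)) (fun m => Part.some (g m))) :
    ∃ c : Code, (∀ σ τ : List ℕ, σ <+: τ → ∀ m v : ℕ, v ∈ eval c (encode (σ, m)) →
        v ∈ eval c (encode (τ, m))) ∧
      (∀ k m v : ℕ, v ∈ eval c (encode (seg g k, m)) → v = f m) ∧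
      ∀ m : ℕ, ∃ k, f m ∈ eval c (encode (seg g k, m)) := by
  obtain ⟨F, hF, hU⟩ := exists_use g (fun m => Part.some (f m)) (RecursiveIn.iff_nat.1 h)
  have h2 : Nat.Partrec (fun n => Part.bind (decode (α := List ℕ × ℕ) n : Part _)
      fun (a : List ℕ × ℕ) => F a.1 a.2) := by
    refine Nat.Partrec.of_eq hF fun n => ?_
    simp [Part.map_id']
  obtain ⟨c, hc⟩ := exists_code.1 h2
  have key : ∀ ρ m, eval c (encode (ρ, m)) = F ρ m := by
    intro ρ m
    rw [hc]
    simp
  refine ⟨c, fun σ τ hστ m v hv => ?_, fun k m v hv => ?_, fun m => ?_⟩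
  · rw [key] at hv ⊢
    exact hU.mono σ τ hστ m v hv
  · rw [key] at hv
    have := (hU.spec m v).2 ⟨k, hv⟩
    rw [Part.mem_some_iff] at this
    exact this
  · obtain ⟨k, hk⟩ := (hU.spec m (f m)).1 (Part.mem_some _)
    exact ⟨k, by rw [key]; exact hk⟩

end Pool.Agent.Helper88.AC
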