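import Pool.Agent.Helper88.AC.Main

set_option autoImplicit false

namespace Pool.Agent.Helper88.AC

open Encodable Filter
open Nat.Partrec (Code)
open Nat.Partrec.Code
open Pool.Agent.Helper90.Sol

/-- Approximation of the oracle of the join. -/
def ent (bS : ℕ → ℕ → Bool) (s : ℕ) (σ : List ℕ) (n : ℕ) : ℕ :=
  cond (decide (n % 2 = 0)) (bS (n / 2) s).toNat (σ.getD (n / 2) 0)

/-- Stage `s` gives the right computation at `z`. -/
def okk (a : ℕ → List ℕ) (h : ℕ → ℕ → ℕ) (bS : ℕ → ℕ → Bool) (c : Code) (z s : ℕ)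
    (σ : List ℕ) : Bool :=
  bEx (min (h z s) s) fun k => decide (evaln (min (h z s) s) c
    (encode (seg (ent bS s σ) k, z)) = some (mem a s z).toNat)

/-- All computations between `z0` and `z` are right. -/
def good (a : ℕ → List ℕ) (h : ℕ → ℕ → ℕ) (bS : ℕ → ℕ → Bool) (c : Code) (z0 s0 z s : ℕ)
    (σ : List ℕ) : Bool :=
  decide (s0 ≤ s) && bAll (z + 1) fun z' => decide (z' < z0) || okk a h bS c z' s σ

theorem toNat_comp {α : Type*} [Primcodable α] {f : α → Bool} (hf : Computable f) :
    Computable fun x => (f x).toNat := by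
  refine (Computable.cond hf (Computable.const 1) (Computable.const 0)).of_eq fun x => ?_
  cases f x <;> rfl

theorem ent_comp {bS : ℕ → ℕ → Bool} (hbS : Computable₂ bS) :
    Computable (fun z : (ℕ × List ℕ) × ℕ => ent bS z.1.1 z.1.2 z.2) := by
  have i1 : Computable (fun z : (ℕ × List ℕ) × ℕ => decide (z.2 % 2 = 0)) :=
    (Primrec.eq.comp (Primrec.nat_mod.comp Primrec.snd (Primrec.const 2))
      (Primrec.const 0)).decide.to_comp
  have i2 : Computable (fun z : (ℕ × List ℕ) × ℕ => z.2 / 2) :=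
    (Primrec.nat_div.comp Primrec.snd (Primrec.const 2)).to_comp
  have i3 : Computable (fun z : (ℕ × List ℕ) × ℕ => (bS (z.2 / 2) z.1.1).toNat) :=
    toNat_comp (Computable₂.comp (f := bS) hbS i2 (Computable.fst.comp Computable.fst))
  have i4 : Computable (fun z : (ℕ × List ℕ) × ℕ => z.1.2.getD (z.2 / 2) 0) :=
    Computable₂.comp (f := fun (l : List ℕ) (n : ℕ) => l.getD n 0)
      (Primrec.list_getD 0).to_comp (Computable.snd.comp Computable.fst) i2
  exact Computable.cond i1 i3 i4

theorem okk_comp {a : ℕ → List ℕ} {h : ℕ → ℕ → ℕ} {bS : ℕ → ℕ → Bool} (ha : Computable a)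
    (hh : Computable₂ h) (hbS : Computable₂ bS) (c : Code) :
    Computable (fun z : (ℕ × List ℕ) × ℕ => okk a h bS c z.2 z.1.1 z.1.2) := by
  have i0 : Computable (fun z : (ℕ × List ℕ) × ℕ => h z.2 z.1.1) :=
    Computable₂.comp (f := h) hh Computable.snd (Computable.fst.comp Computable.fst)
  have i1 : Computable (fun z : (ℕ × List ℕ) × ℕ => min (h z.2 z.1.1) z.1.1) :=
    Computable₂.comp (f := fun x y : ℕ => min x y) Primrec.nat_min.to_comp i0
      (Computable.fst.comp Computable.fst)
  have i2 : Computable₂ (fun (z : ((ℕ × List ℕ) × ℕ) × ℕ) (n : ℕ) =>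
      ent bS z.1.1.1 z.1.1.2 n) :=
    Computable.comp (f := fun z : (ℕ × List ℕ) × ℕ => ent bS z.1.1 z.1.2 z.2)
      (g := fun w : (((ℕ × List ℕ) × ℕ) × ℕ) × ℕ => (w.1.1.1, w.2)) (ent_comp hbS)
      (Computable.pair (Computable.fst.comp (Computable.fst.comp Computable.fst))
        Computable.snd)
  have i3 : Computable (fun z : ((ℕ × List ℕ) × ℕ) × ℕ => seg (ent bS z.1.1.1 z.1.1.2) z.2) :=
    seg_comp (α := ((ℕ × List ℕ) × ℕ) × ℕ) (g := fun z n => ent bS z.1.1.1 z.1.1.2 n)
      (k := fun z => z.2) i2 Computable.snd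
  have i4 : Computable (fun z : ((ℕ × List ℕ) × ℕ) × ℕ =>
      encode (seg (ent bS z.1.1.1 z.1.1.2) z.2, z.1.2)) :=
    Computable.encode.comp (Computable.pair i3 (Computable.snd.comp Computable.fst))
  have i5 : Computable (fun z : ((ℕ × List ℕ) × ℕ) × ℕ =>
      evaln (min (h z.1.2 z.1.1.1) z.1.1.1) c
        (encode (seg (ent bS z.1.1.1 z.1.1.2) z.2, z.1.2))) :=
    Computable.comp (f := fun w : (ℕ × Code) × ℕ => evaln w.1.1 w.1.2 w.2)
      (g := fun z : ((ℕ × List ℕ) × ℕ) × ℕ => ((min (h z.1.2 z.1.1.1) z.1.1.1, c),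
        encode (seg (ent bS z.1.1.1 z.1.1.2) z.2, z.1.2))) primrec_evaln.to_comp
      (Computable.pair (Computable.pair (i1.comp Computable.fst) (Computable.const c)) i4)
  have i6 : Computable (fun z : ((ℕ × List ℕ) × ℕ) × ℕ => some (mem a z.1.1.1 z.1.2).toNat) :=
    Computable.option_some.comp (toNat_comp (Computable₂.comp (f := mem a) (mem_comp ha)
      (Computable.fst.comp (Computable.fst.comp Computable.fst))
      (Computable.snd.comp Computable.fst)))
  have i7 : Computable₂ (fun (z : (ℕ × List ℕ) × ℕ) (k : ℕ) =>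
      decide (evaln (min (h z.2 z.1.1) z.1.1) c (encode (seg (ent bS z.1.1 z.1.2) k, z.2)) =
        some (mem a z.1.1 z.2).toNat)) :=
    Computable₂.comp (f := fun x y : Option ℕ => decide (x = y)) Primrec.eq.decide.to_comp i5 i6
  exact bEx_comp (α := (ℕ × List ℕ) × ℕ) i1 i7

theorem good_comp {a : ℕ → List ℕ} {h : ℕ → ℕ → ℕ} {bS : ℕ → ℕ → Bool} (ha : Computable a)
    (hh : Computable₂ h) (hbS : Computable₂ bS) (c : Code) (z0 s0 : ℕ) :
    Computable (fun z : ℕ × ℕ × List ℕ => good a h bS c z0 s0 z.1 z.2.1 z.2.2) := by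
  have i1 : Computable (fun z : ℕ × ℕ × List ℕ => decide (s0 ≤ z.2.1)) :=
    Computable₂.comp (f := fun x y : ℕ => decide (x ≤ y)) Primrec.nat_le.decide.to_comp
      (Computable.const s0) (Computable.fst.comp Computable.snd)
  have i2 : Computable (fun w : (ℕ × ℕ × List ℕ) × ℕ => okk a h bS c w.2 w.1.2.1 w.1.2.2) :=
    Computable.comp (f := fun z : (ℕ × List ℕ) × ℕ => okk a h bS c z.2 z.1.1 z.1.2)
      (g := fun w : (ℕ × ℕ × List ℕ) × ℕ => (w.1.2, w.2)) (okk_comp ha hh hbS c)
      (Computable.pair (Computable.snd.comp Computable.fst) Computable.snd)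
  have i3 : Computable (fun w : (ℕ × ℕ × List ℕ) × ℕ => decide (w.2 < z0)) :=
    Computable₂.comp (f := fun x y : ℕ => decide (x < y)) Primrec.nat_lt.decide.to_comp
      Computable.snd (Computable.const z0)
  have i4 : Computable₂ (fun (z : ℕ × ℕ × List ℕ) (z' : ℕ) =>
      decide (z' < z0) || okk a h bS c z' z.2.1 z.2.2) :=
    Computable₂.comp (f := or) Primrec.or.to_comp i3 i2
  have i5 : Computable (fun z : ℕ × ℕ × List ℕ => bAll (z.1 + 1) fun z' =>
      decide (z' < z0) || okk a h bS c z' z.2.1 z.2.2) :=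
    bAll_comp (α := ℕ × ℕ × List ℕ) (n := fun z => z.1 + 1)
      (Computable.succ.comp Computable.fst) i4
  exact Computable₂.comp (f := and) Primrec.and.to_comp i1 i5

theorem good_iff {a : ℕ → List ℕ} {h : ℕ → ℕ → ℕ} {bS : ℕ → ℕ → Bool} {c : Code}
    {z0 s0 z s : ℕ} {σ : List ℕ} : good a h bS c z0 s0 z s σ = true ↔
      s0 ≤ s ∧ ∀ z' ≤ z, z0 ≤ z' → okk a h bS c z' s σ = true := by
  unfold good
  rw [Bool.and_eq_true, decide_eq_true_eq, bAll_iff]
  refine and_congr_right fun _ => ?_
  constructor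
  · intro h1 z' hz hz0
    have h2 := h1 z' (by omega)
    rw [Bool.or_eq_true, decide_eq_true_eq] at h2
    rcases h2 with h2 | h2
    · omega
    · exact h2
  · intro h1 z' hz
    rw [Bool.or_eq_true, decide_eq_true_eq]
    by_cases h2 : z' < z0
    · exact Or.inl h2
    · exact Or.inr (h1 z' (by omega) (by omega))

/-- The use function of a reduction, as a function computable from the oracle. -/
theorem exists_R (g f : ℕ → ℕ) {c : Code}
    (hc : ∀ m : ℕ, ∃ k, f m ∈ eval c (encode (seg g k, m))) :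
    ∃ R : ℕ → ℕ, TuringReducible (fun n => Part.some (R n)) (fun n => Part.some (g n)) ∧
      ∀ m, ∃ k < R m, (evaln (R m) c (encode (seg g k, m))).isSome = true := by
  let Φ : ℕ × ℕ × List ℕ → Option ℕ := fun z =>
    cond (bEx z.2.1 fun k => (evaln z.2.1 c (encode (z.2.2.take k, z.1))).isSome)
      (some z.2.1) none
  have hΦ : Computable Φ := by
    have i1 : Computable (fun w : (ℕ × ℕ × List ℕ) × ℕ => w.1.2.2.take w.2) :=
      (Primrec.list_take.comp (Primrec.snd) (Primrec.snd.comp (Primrec.snd.comp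
        Primrec.fst))).to_comp
    have i2 : Computable (fun w : (ℕ × ℕ × List ℕ) × ℕ => encode (w.1.2.2.take w.2, w.1.1)) :=
      Computable.encode.comp (Computable.pair i1 (Computable.fst.comp Computable.fst))
    have i3 : Computable (fun w : (ℕ × ℕ × List ℕ) × ℕ =>
        evaln w.1.2.1 c (encode (w.1.2.2.take w.2, w.1.1))) :=
      Computable.comp (f := fun w : (ℕ × Code) × ℕ => evaln w.1.1 w.1.2 w.2)
        (g := fun w : (ℕ × ℕ × List ℕ) × ℕ =>
          ((w.1.2.1, c), encode (w.1.2.2.take w.2, w.1.1))) primrec_evaln.to_comp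
        (Computable.pair (Computable.pair (Computable.fst.comp (Computable.snd.comp
          Computable.fst)) (Computable.const c)) i2)
    have i4 : Computable₂ (fun (z : ℕ × ℕ × List ℕ) (k : ℕ) =>
        (evaln z.2.1 c (encode (z.2.2.take k, z.1))).isSome) :=
      Primrec.option_isSome.to_comp.comp i3
    have i5 : Computable (fun z : ℕ × ℕ × List ℕ => z.2.1) :=
      Computable.fst.comp Computable.snd
    exact Computable.cond (bEx_comp (α := ℕ × ℕ × List ℕ) i5 i4)
      (Computable.option_some.comp i5) (Computable.const none)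
  have hsp : ∀ m r, (Φ (m, r, seg g r)).isSome = true ↔
      ∃ k < r, (evaln r c (encode (seg g k, m))).isSome = true := by
    intro m r
    simp only [Φ]
    cases hb : bEx r fun k => (evaln r c (encode ((seg g r).take k, m))).isSome with
    | true =>
      obtain ⟨k, hk, hk'⟩ := bEx_iff.1 hb
      rw [seg_take g hk.le] at hk'
      simp only [cond_true, Option.isSome_some, true_iff]
      exact ⟨k, hk, hk'⟩
    | false =>
      simp only [cond_false, Option.isSome_none, Bool.false_eq_true, false_iff]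
      rintro ⟨k, hk, hk'⟩
      have : bEx r (fun k => (evaln r c (encode ((seg g r).take k, m))).isSome) = true :=
        bEx_iff.2 ⟨k, hk, by rw [seg_take g hk.le]; exact hk'⟩
      rw [this] at hb
      exact absurd hb (by simp)
  have hex : ∀ m, ∃ r, (Φ (m, r, seg g r)).isSome = true := by
    intro m
    obtain ⟨k, hk⟩ := hc m
    obtain ⟨n, hn⟩ := evaln_complete.1 hk
    refine ⟨max n (k + 1), (hsp _ _).2 ⟨k, lt_of_lt_of_le (Nat.lt_succ_self k)
      (le_max_right _ _), Option.isSome_iff_exists.2 ⟨f m, ?_⟩⟩⟩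
    exact evaln_mono (le_max_left _ _) hn
  refine ⟨fun m => Nat.find (hex m), ?_, fun m => (hsp _ _).1 (Nat.find_spec (hex m))⟩
  have h1 := red_find g Φ hΦ hex
  have e : (fun m => Part.some ((Φ (m, Nat.find (hex m), seg g (Nat.find (hex m)))).getD 0)) =
      (fun m => Part.some (Nat.find (hex m)) : ℕ →. ℕ) := by
    funext m
    congr 1
    have h2 := Nat.find_spec (hex m)
    simp only [Φ] at h2 ⊢
    cases hb : bEx (Nat.find (hex m)) fun k =>
        (evaln (Nat.find (hex m)) c (encode ((seg g (Nat.find (hex m))).take k, m))).isSome with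
    | true => rfl
    | false =>
      exfalso
      have h3 := hsp m (Nat.find (hex m))
      simp only [Φ] at h3
      rw [hb] at h3
      have h4 := (hsp m (Nat.find (hex m))).1 (Nat.find_spec (hex m))
      have h5 := h3.2 h4
      simp at h5
  rw [e] at h1
  exact h1

end Pool.Agent.Helper88.AC
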