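import Pool.Agent.Helper88.AC.Constr

set_option autoImplicit false

namespace Pool.Agent.Helper88.AC

/-- The function `h` approximates from below, as its second argument grows, a function which
dominates every total function computable from `A`. -/
structure Dominates (A : Set ℕ) (h : ℕ → ℕ → ℕ) : Prop where
  comp : Computable₂ h
  mono_right : ∀ z, Monotone (h z)
  mono_left : ∀ t, Monotone (fun z => h z t)
  bdd : ∀ z, ∃ b, ∀ t, h z t ≤ b
  dom : ∀ g : ℕ → ℕ, TuringReducible (fun n => Part.some (g n)) (fun n => Part.some (chr A n)) →
    ∃ z0, ∀ z, z0 ≤ z → ∃ t, g z ≤ h z t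

end Pool.Agent.Helper88.AC
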