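import Pool.Agent.Helper88.AC.Defs

set_option autoImplicit false

namespace Pool.Agent.Helper88.AC

open Encodable
open Nat.Partrec (Code)
open Nat.Partrec.Code
open Pool.Agent.Helper90.Sol

/-- Fixing the argument of a functional, uniformly. -/
theorem exists_f : ∃ f : ℕ → ℕ → ℕ, Computable₂ f ∧ ∀ (c n : ℕ) (σ : List ℕ),
    eval (Denumerable.ofNat Code (f c n)) (encode σ) =
      eval (Denumerable.ofNat Code c) (encode (σ, n)) := by
  have h1 : Partrec (fun z : ℕ => eval (Denumerable.ofNat Code z.unpair.1.unpair.1)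
      (Nat.pair z.unpair.2 z.unpair.1.unpair.2)) := by
    have j1 : Computable (fun z : ℕ => z.unpair.1) := Computable.fst.comp Computable.unpair
    refine eval_part.comp ((Computable.ofNat Code).comp (Computable.fst.comp
      (Computable.unpair.comp j1))) ?_
    exact Primrec₂.natPair.to_comp.comp (Computable.snd.comp Computable.unpair)
      (Computable.snd.comp (Computable.unpair.comp j1))
  obtain ⟨u, hu⟩ := exists_code.1 (Partrec.nat_iff.1 h1)
  refine ⟨fun c n => encode (curry u (Nat.pair c n)), ?_, fun c n σ => ?_⟩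
  · exact Computable.encode.comp (primrec₂_curry.to_comp.comp (Computable.const u)
      Primrec₂.natPair.to_comp)
  · rw [Denumerable.ofNat_encode, eval_curry, hu]
    simp

/-- Asking for a missing element, uniformly. -/
theorem exists_G (f : ℕ → ℕ → ℕ) (hf : Computable₂ f) : ∃ G : ℕ → ℕ, Computable G ∧
    ∀ (c : ℕ) (τ : List ℕ), (eval (Denumerable.ofNat Code (G c)) (encode τ)).Dom ↔
      ∃ n, τ[f c n]? = some 0 := by
  have h1 : Partrec (fun z : ℕ => Nat.rfind fun n => Part.some (decide
      (((decode (α := List ℕ) z.unpair.2).getD [])[f z.unpair.1 n]? = some 0))) := by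
    refine Partrec.rfind (α := ℕ) (p := fun z n => Part.some (decide
      (((decode (α := List ℕ) z.unpair.2).getD [])[f z.unpair.1 n]? = some 0))) ?_
    refine Computable.partrec ?_
    have j1 : Computable (fun w : ℕ × ℕ => (decode (α := List ℕ) w.1.unpair.2).getD []) :=
      (Primrec.option_getD.comp (Primrec.decode.comp (Primrec.snd.comp
        (Primrec.unpair.comp Primrec.fst))) (Primrec.const [])).to_comp
    have j2 : Computable (fun w : ℕ × ℕ => f w.1.unpair.1 w.2) :=
      Computable₂.comp (f := f) hf (Computable.fst.comp (Computable.unpair.comp Computable.fst))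
        Computable.snd
    have j3 : Computable (fun w : ℕ × ℕ =>
        ((decode (α := List ℕ) w.1.unpair.2).getD [])[f w.1.unpair.1 w.2]?) :=
      Computable.list_getElem?.comp j1 j2
    exact Computable₂.comp (f := fun x y : Option ℕ => decide (x = y))
      Primrec.eq.decide.to_comp j3 (Computable.const (some 0))
  obtain ⟨u, hu⟩ := exists_code.1 (Partrec.nat_iff.1 h1)
  refine ⟨fun c => encode (curry u c), ?_, fun c τ => ?_⟩
  · exact Computable.encode.comp (primrec₂_curry.to_comp.comp (Computable.const u)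
      Computable.id)
  · rw [Denumerable.ofNat_encode, eval_curry, hu]
    simp only [Nat.unpair_pair, encodek, Option.getD_some]
    rw [Nat.rfind_dom']
    constructor
    · rintro ⟨n, hn, -⟩
      exact ⟨n, of_decide_eq_true (Part.mem_some_iff.1 hn).symm⟩
    · rintro ⟨n, hn⟩
      exact ⟨n, Part.mem_some_iff.2 (decide_eq_true hn).symm, fun _ => trivial⟩

theorem f_mem {f : ℕ → ℕ → ℕ} (hf : ∀ (c n : ℕ) (σ : List ℕ),
    eval (Denumerable.ofNat Code (f c n)) (encode σ) =
      eval (Denumerable.ofNat Code c) (encode (σ, n))) (A : Set ℕ) (c n : ℕ) :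
    f c n ∈ jump A ↔ ∃ k, (eval (Denumerable.ofNat Code c) (encode (seg (chr A) k, n))).Dom := by
  unfold jump
  refine exists_congr fun k => ?_
  rw [← hf c n (seg (chr A) k)]
  rfl

theorem G_mem {f : ℕ → ℕ → ℕ} {G : ℕ → ℕ} (hG : ∀ (c : ℕ) (τ : List ℕ),
    (eval (Denumerable.ofNat Code (G c)) (encode τ)).Dom ↔ ∃ n, τ[f c n]? = some 0)
    (J : Set ℕ) (c : ℕ) : G c ∈ jump J ↔ ∃ n, f c n ∉ J := by
  have h1 : G c ∈ jump J ↔ ∃ k, (eval (Denumerable.ofNat Code (G c))
    (encode (seg (chr J) k))).Dom := Iff.rfl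
  rw [h1]
  constructor
  · rintro ⟨k, hk⟩
    obtain ⟨n, hn⟩ := (hG c _).1 hk
    rw [seg_getElem?] at hn
    split_ifs at hn with hlt
    exact ⟨n, chr_zero.1 (Option.some.inj hn)⟩
  · rintro ⟨n, hn⟩
    refine ⟨f c n + 1, (hG c _).2 ⟨n, ?_⟩⟩
    rw [seg_getElem?, if_pos (Nat.lt_succ_self _), chr_of_not hn]

/-- Totality of a functional on `A` is coded in the second jump. -/
theorem exists_total_code (A : Set ℕ) : ∃ G : ℕ → ℕ, Computable G ∧ ∀ c : ℕ,
    chr (jump (jump A)) (G c) = 0 ↔
      ∀ n : ℕ, ∃ k, (eval (Denumerable.ofNat Code c) (encode (seg (chr A) k, n))).Dom := by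
  obtain ⟨f, hf1, hf2⟩ := exists_f
  obtain ⟨G, hG1, hG2⟩ := exists_G f hf1
  refine ⟨G, hG1, fun c => ?_⟩
  rw [chr_zero, G_mem hG2]
  push Not
  exact forall_congr' fun n => f_mem hf2 A c n

end Pool.Agent.Helper88.AC
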