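import Pool.Agent.Helper88.AC.LowA
import Pool.Agent.Helper88.AC.Join

set_option autoImplicit false

namespace Pool.Agent.Helper88.AC

open Encodable Filter
open Nat.Partrec (Code)
open Nat.Partrec.Code
open Pool.Agent.Helper90.Sol

/-- Stages of the first jump. -/
def k0 (n t : ℕ) : Bool :=
  bEx t fun k => (evaln t (Denumerable.ofNat Code n) (encode (seg (fun _ => 0) k))).isSome

/-- Stages of the second jump. -/
def k1 (n s t : ℕ) : Bool :=
  bEx s fun k => (evaln s (Denumerable.ofNat Code n)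
    (encode (seg (fun m => (k0 m t).toNat) k))).isSome

/-- The functional `θ` gives the value `0` at stages `s`, `t`. -/
def LT (θ : Code) (G : ℕ → ℕ) (c s t : ℕ) : Bool :=
  bEx s fun k => decide (evaln s θ (encode (seg (fun m => (k1 m s t).toNat) k, G c)) = some 0)

theorem evaln_comp' {α : Type*} [Primcodable α] {s : α → ℕ} {c : α → Code} {x : α → ℕ}
    (hs : Computable s) (hc : Computable c) (hx : Computable x) :
    Computable fun z => evaln (s z) (c z) (x z) :=
  Computable.comp (f := fun w : (ℕ × Code) × ℕ => evaln w.1.1 w.1.2 w.2)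
    (g := fun z => ((s z, c z), x z)) primrec_evaln.to_comp
    (Computable.pair (Computable.pair hs hc) hx)

theorem k0_comp : Computable₂ k0 := by
  have i1 : Computable (fun z : (ℕ × ℕ) × ℕ => seg (fun _ => 0) z.2) :=
    seg_comp (α := (ℕ × ℕ) × ℕ) (g := fun _ _ => 0) (k := fun z => z.2)
      (Computable.const 0) Computable.snd
  have i2 : Computable₂ (fun (z : ℕ × ℕ) (k : ℕ) =>
      (evaln z.2 (Denumerable.ofNat Code z.1) (encode (seg (fun _ => 0) k))).isSome) :=
    Primrec.option_isSome.to_comp.comp (evaln_comp' (α := (ℕ × ℕ) × ℕ)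
      (Computable.snd.comp Computable.fst)
      ((Computable.ofNat Code).comp (Computable.fst.comp Computable.fst))
      (Computable.encode.comp i1))
  exact bEx_comp (α := ℕ × ℕ) (n := fun z => z.2) Computable.snd i2

theorem k1_comp : Computable (fun z : (ℕ × ℕ) × ℕ => k1 z.1.1 z.1.2 z.2) := by
  have i0 : Computable₂ (fun (z : ((ℕ × ℕ) × ℕ) × ℕ) (m : ℕ) => (k0 m z.1.2).toNat) :=
    toNat_comp (Computable₂.comp (f := k0) k0_comp Computable.snd
      (Computable.snd.comp (Computable.fst.comp Computable.fst)))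
  have i1 : Computable (fun z : ((ℕ × ℕ) × ℕ) × ℕ => seg (fun m => (k0 m z.1.2).toNat) z.2) :=
    seg_comp (α := ((ℕ × ℕ) × ℕ) × ℕ) (g := fun z m => (k0 m z.1.2).toNat)
      (k := fun z => z.2) i0 Computable.snd
  have i2 : Computable₂ (fun (z : (ℕ × ℕ) × ℕ) (k : ℕ) =>
      (evaln z.1.2 (Denumerable.ofNat Code z.1.1)
        (encode (seg (fun m => (k0 m z.2).toNat) k))).isSome) :=
    Primrec.option_isSome.to_comp.comp (evaln_comp' (α := ((ℕ × ℕ) × ℕ) × ℕ)
      (Computable.snd.comp (Computable.fst.comp Computable.fst))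
      ((Computable.ofNat Code).comp (Computable.fst.comp (Computable.fst.comp Computable.fst)))
      (Computable.encode.comp i1))
  exact bEx_comp (α := (ℕ × ℕ) × ℕ) (n := fun z => z.1.2)
    (Computable.snd.comp Computable.fst) i2

theorem LT_comp (θ : Code) {G : ℕ → ℕ} (hG : Computable G) :
    Computable (fun z : (ℕ × ℕ) × ℕ => LT θ G z.1.1 z.1.2 z.2) := by
  have i0 : Computable₂ (fun (z : ((ℕ × ℕ) × ℕ) × ℕ) (m : ℕ) => (k1 m z.1.1.2 z.1.2).toNat) :=
    toNat_comp (Computable.comp (f := fun w : (ℕ × ℕ) × ℕ => k1 w.1.1 w.1.2 w.2)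
      (g := fun z : (((ℕ × ℕ) × ℕ) × ℕ) × ℕ => ((z.2, z.1.1.1.2), z.1.1.2)) k1_comp
      (Computable.pair (Computable.pair Computable.snd
        (Computable.snd.comp (Computable.fst.comp (Computable.fst.comp Computable.fst))))
        (Computable.snd.comp (Computable.fst.comp Computable.fst))))
  have i1 : Computable (fun z : ((ℕ × ℕ) × ℕ) × ℕ =>
      seg (fun m => (k1 m z.1.1.2 z.1.2).toNat) z.2) :=
    seg_comp (α := ((ℕ × ℕ) × ℕ) × ℕ) (g := fun z m => (k1 m z.1.1.2 z.1.2).toNat)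
      (k := fun z => z.2) i0 Computable.snd
  have i3 : Computable (fun z : ((ℕ × ℕ) × ℕ) × ℕ =>
      encode (seg (fun m => (k1 m z.1.1.2 z.1.2).toNat) z.2, G z.1.1.1)) :=
    Computable.encode.comp (Computable.pair i1 (hG.comp (Computable.fst.comp
      (Computable.fst.comp Computable.fst))))
  have i4 : Computable (fun z : ((ℕ × ℕ) × ℕ) × ℕ => evaln z.1.1.2 θ
      (encode (seg (fun m => (k1 m z.1.1.2 z.1.2).toNat) z.2, G z.1.1.1))) :=
    evaln_comp' (α := ((ℕ × ℕ) × ℕ) × ℕ)
      (Computable.snd.comp (Computable.fst.comp Computable.fst)) (Computable.const θ) i3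
  have i2 : Computable₂ (fun (z : (ℕ × ℕ) × ℕ) (k : ℕ) =>
      decide (evaln z.1.2 θ (encode (seg (fun m => (k1 m z.1.2 z.2).toNat) k, G z.1.1)) =
        some 0)) :=
    Computable₂.comp (f := fun x y : Option ℕ => decide (x = y)) Primrec.eq.decide.to_comp i4
      (Computable.const (some 0))
  exact bEx_comp (α := (ℕ × ℕ) × ℕ) (n := fun z => z.1.2)
    (Computable.snd.comp Computable.fst) i2

theorem k0_ev (n : ℕ) : ∀ᶠ t in atTop, (k0 n t).toNat = chr (jump ∅) n := by
  have he : ∀ k, seg (fun _ => 0) k = seg (chr ∅) k := fun k =>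
    seg_congr fun m _ => (chr_of_not (Set.notMem_empty m)).symm
  by_cases hn : n ∈ jump ∅
  · obtain ⟨k, hk⟩ := id hn
    obtain ⟨v, hv⟩ := Part.dom_iff_mem.1 hk
    obtain ⟨s, hs⟩ := evaln_complete.1 hv
    filter_upwards [eventually_ge_atTop s, eventually_ge_atTop (k + 1)] with t h1 h2
    rw [chr_of hn]
    have : k0 n t = true := bEx_iff.2 ⟨k, h2, by
      rw [he]
      exact Option.isSome_iff_exists.2 ⟨v, evaln_mono h1 hs⟩⟩
    rw [this]
    rfl
  · refine Eventually.of_forall fun t => ?_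
    rw [chr_of_not hn]
    cases hb : k0 n t with
    | false => rfl
    | true =>
      exfalso
      obtain ⟨k, -, hk⟩ := bEx_iff.1 hb
      obtain ⟨v, hv⟩ := Option.isSome_iff_exists.1 hk
      rw [he] at hv
      exact hn ⟨k, Part.dom_iff_mem.2 ⟨v, evaln_sound hv⟩⟩

/-- The stages of the second jump in the limit over `t`. -/
def K1 (s : ℕ) : Set ℕ :=
  {n | ∃ k < s, (evaln s (Denumerable.ofNat Code n) (encode (seg (chr (jump ∅)) k))).isSome = true}

theorem k1_ev (s : ℕ) : ∀ᶠ t in atTop, ∀ n, (k1 n s t).toNat = chr (K1 s) n := by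
  have h1 : ∀ᶠ t in atTop, ∀ m ∈ Finset.range s, (k0 m t).toNat = chr (jump ∅) m := by
    rw [Filter.eventually_all_finset]
    exact fun m _ => k0_ev m
  filter_upwards [h1] with t ht n
  have h2 : k1 n s t = true ↔ n ∈ K1 s := by
    unfold k1
    rw [bEx_iff]
    refine exists_congr fun k => and_congr_right fun hk => ?_
    rw [seg_congr (g := fun m => (k0 m t).toNat) (g' := chr (jump ∅)) fun m hm =>
      ht m (Finset.mem_range.2 (hm.trans hk))]
  by_cases hn : n ∈ K1 s
  · rw [chr_of hn, h2.2 hn]; rfl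
  · rw [chr_of_not hn]
    cases hb : k1 n s t with
    | false => rfl
    | true => exact absurd (h2.1 hb) hn

theorem K1_ev (n : ℕ) : ∀ᶠ s in atTop, chr (K1 s) n = chr (jump (jump ∅)) n := by
  by_cases hn : n ∈ jump (jump ∅)
  · obtain ⟨k, hk⟩ := id hn
    obtain ⟨v, hv⟩ := Part.dom_iff_mem.1 hk
    obtain ⟨s, hs⟩ := evaln_complete.1 hv
    filter_upwards [eventually_ge_atTop s, eventually_ge_atTop (k + 1)] with t h1 h2
    rw [chr_of hn]
    exact chr_of ⟨k, h2, Option.isSome_iff_exists.2 ⟨v, evaln_mono h1 hs⟩⟩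
  · refine Eventually.of_forall fun t => ?_
    rw [chr_of_not hn]
    refine chr_of_not ?_
    rintro ⟨k, -, hk⟩
    obtain ⟨v, hv⟩ := Option.isSome_iff_exists.1 hk
    exact hn ⟨k, Part.dom_iff_mem.2 ⟨v, evaln_sound hv⟩⟩

/-- The limit over `t` of `LT`. -/
def LTlim (θ : Code) (G : ℕ → ℕ) (c s : ℕ) : Prop :=
  ∃ k < s, evaln s θ (encode (seg (chr (K1 s)) k, G c)) = some 0

theorem LT_ev (θ : Code) (G : ℕ → ℕ) (s : ℕ) :
    ∀ᶠ t in atTop, ∀ c, LT θ G c s t = true ↔ LTlim θ G c s := by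
  filter_upwards [k1_ev s] with t ht c
  unfold LT LTlim
  rw [bEx_iff]
  refine exists_congr fun k => and_congr_right fun hk => ?_
  rw [decide_eq_true_eq, seg_congr (g := fun m => (k1 m s t).toNat) (g' := chr (K1 s))
    fun m _ => ht m]

theorem LTlim_ev {θ : Code} {f : ℕ → ℕ}
    (hm : ∀ σ τ : List ℕ, σ <+: τ → ∀ m v : ℕ, v ∈ eval θ (encode (σ, m)) →
        v ∈ eval θ (encode (τ, m)))
    (hc : ∀ m : ℕ, ∃ k, f m ∈ eval θ (encode (seg (chr (jump (jump ∅))) k, m)))
    (G : ℕ → ℕ) (c : ℕ) : ∀ᶠ s in atTop, LTlim θ G c s ↔ f (G c) = 0 := by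
  obtain ⟨k, hk⟩ := hc (G c)
  obtain ⟨n, hn⟩ := evaln_complete.1 hk
  have h1 : ∀ᶠ s in atTop, ∀ m ∈ Finset.range k, chr (K1 s) m = chr (jump (jump ∅)) m := by
    rw [Filter.eventually_all_finset]
    exact fun m _ => K1_ev m
  filter_upwards [h1, eventually_ge_atTop n, eventually_ge_atTop (k + 1)] with s hs h2 h3
  have h4 : seg (chr (K1 s)) k = seg (chr (jump (jump ∅))) k :=
    seg_congr fun m hm => hs m (Finset.mem_range.2 hm)
  constructor
  · rintro ⟨k', -, hk'⟩
    have h5 := hm _ _ (seg_prefix (chr (K1 s)) (le_max_left k' k)) _ _ (evaln_sound hk')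
    rw [← h4] at hk
    have h6 := hm _ _ (seg_prefix (chr (K1 s)) (le_max_right k' k)) _ _ hk
    exact Part.mem_unique h6 h5
  · intro h5
    refine ⟨k, h3, ?_⟩
    rw [h4, ← h5]
    exact evaln_mono h2 hn

end Pool.Agent.Helper88.AC
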