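import Pool.Agent.Helper88.AC.LowB

set_option autoImplicit false

namespace Pool.Agent.Helper88.AC

open Encodable Filter
open Nat.Partrec (Code)
open Nat.Partrec.Code
open Pool.Agent.Helper90.Sol

/-- The functional `c` halts at `z` within `s` steps on stage `t` of `A`. -/
def Hlt (a : ℕ → List ℕ) (c z s t : ℕ) : Bool :=
  bEx s fun k => (evaln s (Denumerable.ofNat Code c)
    (encode (seg (fun m => (mem a t m).toNat) k, z))).isSome

/-- The search stops at `s`. -/
def Stop (θ : Code) (G : ℕ → ℕ) (a : ℕ → List ℕ) (c z s t : ℕ) : Bool :=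
  !(LT θ G c s t) || Hlt a c z s t

/-- The length of the search. -/
def Len (θ : Code) (G : ℕ → ℕ) (a : ℕ → List ℕ) (c z t : ℕ) : ℕ :=
  bSup (t + 1) fun s => cond (bAll s fun s' => decide (s' < z) || !(Stop θ G a c z s' t)) s 0

/-- The bound, not yet monotone. -/
def hh0 (θ : Code) (G : ℕ → ℕ) (a : ℕ → List ℕ) (z t : ℕ) : ℕ :=
  bSup (z + 1) fun c => Len θ G a c z t

/-- The bound. -/
def hh (θ : Code) (G : ℕ → ℕ) (a : ℕ → List ℕ) (z t : ℕ) : ℕ :=
  bSup (z + 1) fun z' => bSup (t + 1) fun t' => hh0 θ G a z' t'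

section

variable {θ : Code} {G : ℕ → ℕ} {a : ℕ → List ℕ}

theorem Stop_comp (θ : Code) (hG : Computable G) (ha : Computable a) :
    Computable (fun w : ((ℕ × ℕ) × ℕ) × ℕ => Stop θ G a w.1.1.1 w.1.1.2 w.2 w.1.2) := by
  have c1 : Computable (fun w : ((ℕ × ℕ) × ℕ) × ℕ => w.1.1.1) :=
    Computable.fst.comp (Computable.fst.comp Computable.fst)
  have z1 : Computable (fun w : ((ℕ × ℕ) × ℕ) × ℕ => w.1.1.2) :=
    Computable.snd.comp (Computable.fst.comp Computable.fst)
  have t1 : Computable (fun w : ((ℕ × ℕ) × ℕ) × ℕ => w.1.2) :=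
    Computable.snd.comp Computable.fst
  have s1 : Computable (fun w : ((ℕ × ℕ) × ℕ) × ℕ => w.2) := Computable.snd
  have l1 : Computable (fun w : ((ℕ × ℕ) × ℕ) × ℕ => LT θ G w.1.1.1 w.2 w.1.2) :=
    Computable.comp (f := fun z : (ℕ × ℕ) × ℕ => LT θ G z.1.1 z.1.2 z.2)
      (g := fun w : ((ℕ × ℕ) × ℕ) × ℕ => ((w.1.1.1, w.2), w.1.2)) (LT_comp θ hG)
      (Computable.pair (Computable.pair c1 s1) t1)
  have m0 : Computable₂ (fun (w : (((ℕ × ℕ) × ℕ) × ℕ) × ℕ) (m : ℕ) =>
      (mem a w.1.1.2 m).toNat) :=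
    toNat_comp (Computable₂.comp (f := mem a) (mem_comp ha)
      (t1.comp (Computable.fst.comp Computable.fst)) Computable.snd)
  have m1 : Computable (fun w : (((ℕ × ℕ) × ℕ) × ℕ) × ℕ =>
      seg (fun m => (mem a w.1.1.2 m).toNat) w.2) :=
    seg_comp (α := (((ℕ × ℕ) × ℕ) × ℕ) × ℕ) (g := fun w m => (mem a w.1.1.2 m).toNat)
      (k := fun w => w.2) m0 Computable.snd
  have m2 : Computable (fun w : (((ℕ × ℕ) × ℕ) × ℕ) × ℕ =>
      encode (seg (fun m => (mem a w.1.1.2 m).toNat) w.2, w.1.1.1.2)) :=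
    Computable.encode.comp (Computable.pair m1 (z1.comp Computable.fst))
  have m3 : Computable₂ (fun (w : ((ℕ × ℕ) × ℕ) × ℕ) (k : ℕ) =>
      (evaln w.2 (Denumerable.ofNat Code w.1.1.1)
        (encode (seg (fun m => (mem a w.1.2 m).toNat) k, w.1.1.2))).isSome) :=
    Primrec.option_isSome.to_comp.comp (evaln_comp' (α := (((ℕ × ℕ) × ℕ) × ℕ) × ℕ)
      (s1.comp Computable.fst) ((Computable.ofNat Code).comp (c1.comp Computable.fst)) m2)
  have h1 : Computable (fun w : ((ℕ × ℕ) × ℕ) × ℕ => Hlt a w.1.1.1 w.1.1.2 w.2 w.1.2) :=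
    bEx_comp (α := ((ℕ × ℕ) × ℕ) × ℕ) (n := fun w => w.2) s1 m3
  exact Computable₂.comp (f := or) Primrec.or.to_comp
    (Computable.comp (f := not) Primrec.not.to_comp l1) h1

theorem Len_comp (θ : Code) (hG : Computable G) (ha : Computable a) :
    Computable (fun w : (ℕ × ℕ) × ℕ => Len θ G a w.1.1 w.1.2 w.2) := by
  have i1 : Computable (fun w : (((ℕ × ℕ) × ℕ) × ℕ) × ℕ =>
      Stop θ G a w.1.1.1.1 w.1.1.1.2 w.2 w.1.1.2) :=
    Computable.comp (f := fun w : ((ℕ × ℕ) × ℕ) × ℕ => Stop θ G a w.1.1.1 w.1.1.2 w.2 w.1.2)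
      (g := fun w : (((ℕ × ℕ) × ℕ) × ℕ) × ℕ => (w.1.1, w.2)) (Stop_comp θ hG ha)
      (Computable.pair (Computable.fst.comp Computable.fst) Computable.snd)
  have i2 : Computable (fun w : (((ℕ × ℕ) × ℕ) × ℕ) × ℕ => decide (w.2 < w.1.1.1.2)) :=
    Computable₂.comp (f := fun x y : ℕ => decide (x < y)) Primrec.nat_lt.decide.to_comp
      Computable.snd (Computable.snd.comp (Computable.fst.comp (Computable.fst.comp
        Computable.fst)))
  have i3 : Computable₂ (fun (w : ((ℕ × ℕ) × ℕ) × ℕ) (s' : ℕ) =>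
      decide (s' < w.1.1.2) || !(Stop θ G a w.1.1.1 w.1.1.2 s' w.1.2)) :=
    Computable₂.comp (f := or) Primrec.or.to_comp i2
      (Computable.comp (f := not) Primrec.not.to_comp i1)
  have i4 : Computable (fun w : ((ℕ × ℕ) × ℕ) × ℕ => bAll w.2 fun s' =>
      decide (s' < w.1.1.2) || !(Stop θ G a w.1.1.1 w.1.1.2 s' w.1.2)) :=
    bAll_comp (α := ((ℕ × ℕ) × ℕ) × ℕ) (n := fun w => w.2) Computable.snd i3
  have i5 : Computable₂ (fun (w : (ℕ × ℕ) × ℕ) (s : ℕ) => cond (bAll s fun s' =>
      decide (s' < w.1.2) || !(Stop θ G a w.1.1 w.1.2 s' w.2)) s 0) :=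
    Computable.cond i4 Computable.snd (Computable.const 0)
  exact bSup_comp (α := (ℕ × ℕ) × ℕ) (n := fun w => w.2 + 1)
    (Computable.succ.comp Computable.snd) i5

theorem hh_comp (θ : Code) (hG : Computable G) (ha : Computable a) :
    Computable₂ (hh θ G a) := by
  have i1 : Computable₂ (fun (w : ℕ × ℕ) (c : ℕ) => Len θ G a c w.1 w.2) :=
    Computable.comp (f := fun w : (ℕ × ℕ) × ℕ => Len θ G a w.1.1 w.1.2 w.2)
      (g := fun w : (ℕ × ℕ) × ℕ => ((w.2, w.1.1), w.1.2)) (Len_comp θ hG ha)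
      (Computable.pair (Computable.pair Computable.snd (Computable.fst.comp Computable.fst))
        (Computable.snd.comp Computable.fst))
  have i2 : Computable₂ (hh0 θ G a) :=
    bSup_comp (α := ℕ × ℕ) (n := fun w => w.1 + 1) (Computable.succ.comp Computable.fst) i1
  have i3 : Computable₂ (fun (w : (ℕ × ℕ) × ℕ) (t' : ℕ) => hh0 θ G a w.2 t') :=
    Computable₂.comp (f := hh0 θ G a) i2 (Computable.snd.comp Computable.fst) Computable.snd
  have i4 : Computable₂ (fun (w : ℕ × ℕ) (z' : ℕ) =>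
      bSup (w.2 + 1) fun t' => hh0 θ G a z' t') :=
    bSup_comp (α := (ℕ × ℕ) × ℕ) (n := fun w => w.1.2 + 1)
      (Computable.succ.comp (Computable.snd.comp Computable.fst)) i3
  exact bSup_comp (α := ℕ × ℕ) (n := fun w => w.1 + 1) (Computable.succ.comp Computable.fst) i4

theorem hh_mono_right (z : ℕ) : Monotone (hh θ G a z) := by
  intro t t' htt
  refine bSup_le fun z' hz' => ?_
  refine le_trans ?_ (le_bSup (f := fun z' => bSup (t' + 1) fun t'' => hh0 θ G a z' t'') hz')
  refine bSup_le fun s hs => ?_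
  exact le_bSup (f := fun t'' => hh0 θ G a z' t'') (by omega : s < t' + 1)

theorem hh_mono_left (t : ℕ) : Monotone (fun z => hh θ G a z t) := by
  intro z z' hzz
  refine bSup_le fun y hy => ?_
  exact le_bSup (f := fun y => bSup (t + 1) fun t'' => hh0 θ G a y t'')
    (by omega : y < z' + 1)

theorem hh0_le (z t : ℕ) : hh0 θ G a z t ≤ hh θ G a z t :=
  (le_bSup (f := fun t'' => hh0 θ G a z t'') (Nat.lt_succ_self t)).trans
    (le_bSup (f := fun z' => bSup (t + 1) fun t'' => hh0 θ G a z' t'') (Nat.lt_succ_self z))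

theorem Len_le (c z t : ℕ) : Len θ G a c z t ≤ t := by
  refine bSup_le fun s hs => ?_
  cases bAll s fun s' => decide (s' < z) || !(Stop θ G a c z s' t) with
  | true => exact Nat.lt_succ_iff.1 hs
  | false => exact Nat.zero_le _

theorem Len_le_of_stop {c z t s : ℕ} (hz : z ≤ s) (hs : Stop θ G a c z s t = true) :
    Len θ G a c z t ≤ s := by
  refine bSup_le fun s1 hs1 => ?_
  cases hb : bAll s1 fun s' => decide (s' < z) || !(Stop θ G a c z s' t) with
  | false => exact Nat.zero_le _
  | true =>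
    change s1 ≤ s
    by_contra hc
    have h1 := bAll_iff.1 hb s (by omega)
    rw [hs, Bool.or_eq_true, decide_eq_true_eq] at h1
    rcases h1 with h1 | h1
    · omega
    · exact absurd h1 (by simp)

theorem hh_bdd (hst : ∀ c z, ∃ s, z ≤ s ∧ ∀ᶠ t in atTop, Stop θ G a c z s t = true) (z : ℕ) :
    ∃ b, ∀ t, hh θ G a z t ≤ b := by
  have h1 : ∀ c z, ∃ b, ∀ t, Len θ G a c z t ≤ b := by
    intro c z
    obtain ⟨s, hs, hev⟩ := hst c z
    obtain ⟨t0, ht0⟩ := eventually_atTop.1 hev
    refine ⟨max s t0, fun t => ?_⟩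
    rcases le_total t0 t with h | h
    · exact (Len_le_of_stop hs (ht0 t h)).trans (le_max_left _ _)
    · exact ((Len_le c z t).trans h).trans (le_max_right _ _)
  choose b hb using h1
  refine ⟨bSup (z + 1) fun z' => bSup (z' + 1) fun c => b c z', fun t => ?_⟩
  refine bSup_le fun z' hz' => bSup_le fun t' _ => ?_
  refine le_trans ?_ (le_bSup (f := fun z' => bSup (z' + 1) fun c => b c z') hz')
  exact bSup_le fun c hc => (hb c z' t').trans (le_bSup (f := fun c => b c z') hc)

end

/-- Martin's theorem: for an r.e. set which is low₂ there is a function approximable from below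
which dominates all functions computable from the set. -/
theorem dominates_of_lowTwo' (A : Set ℕ) (a : ℕ → List ℕ) (ha : Computable a)
    (hmono : ∀ s, a s ⊆ a (s + 1)) (hA : ∀ x, x ∈ A ↔ ∃ s, x ∈ a s) (hL : LowTwo A) :
    ∃ h : ℕ → ℕ → ℕ, Computable₂ h ∧ (∀ z, Monotone (h z)) ∧ (∀ t, Monotone fun z => h z t) ∧
      (∀ z, ∃ b, ∀ t, h z t ≤ b) ∧
      ∀ g : ℕ → ℕ, TuringReducible (fun n => Part.some (g n)) (fun n => Part.some (chr A n)) →
        ∃ z0, ∀ z, z0 ≤ z → ∃ t, g z ≤ h z t := by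
  obtain ⟨G, hG1, hG2⟩ := exists_total_code A
  obtain ⟨θ, hθ1, -, hθ3⟩ := exists_functional (chr (jump (jump ∅))) (chr (jump (jump A))) hL
  have hmem : ∀ x, ∀ᶠ t in atTop, (mem a t x).toNat = chr A x := by
    intro x
    by_cases hx : x ∈ A
    · obtain ⟨t, ht⟩ := (hA x).1 hx
      filter_upwards [eventually_ge_atTop t] with s hs
      rw [chr_of hx, mem_iff.2 (amono hmono hs ht)]
      rfl
    · refine Eventually.of_forall fun s => ?_
      rw [chr_of_not hx]
      cases hm : mem a s x with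
      | false => rfl
      | true => exact absurd ((hA x).2 ⟨s, mem_iff.1 hm⟩) hx
  have hseg : ∀ k, ∀ᶠ t in atTop, ∀ k' ≤ k,
      seg (fun m => (mem a t m).toNat) k' = seg (chr A) k' := by
    intro k
    have h1 : ∀ᶠ t in atTop, ∀ m ∈ Finset.range k, (mem a t m).toNat = chr A m := by
      rw [Filter.eventually_all_finset]
      exact fun m _ => hmem m
    filter_upwards [h1] with t ht k' hk'
    exact seg_congr fun m hm => ht m (Finset.mem_range.2 (by omega))
  have hev := LTlim_ev (f := chr (jump (jump A))) hθ1 hθ3 G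
  have hst : ∀ c z, ∃ s, z ≤ s ∧ ∀ᶠ t in atTop, Stop θ G a c z s t = true := by
    intro c z
    by_cases hc : chr (jump (jump A)) (G c) = 0
    · obtain ⟨k, hk⟩ := (hG2 c).1 hc z
      obtain ⟨v, hv⟩ := Part.dom_iff_mem.1 hk
      obtain ⟨n, hn⟩ := evaln_complete.1 hv
      refine ⟨max z (max n (k + 1)), le_max_left _ _, ?_⟩
      filter_upwards [hseg k] with t ht
      have h1 : Hlt a c z (max z (max n (k + 1))) t = true := by
        refine bEx_iff.2 ⟨k, lt_of_lt_of_le (Nat.lt_succ_self k)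
          ((le_max_right _ _).trans (le_max_right _ _)), ?_⟩
        rw [ht k le_rfl]
        exact Option.isSome_iff_exists.2 ⟨v, evaln_mono
          ((le_max_left _ _).trans (le_max_right _ _)) hn⟩
      unfold Stop
      rw [h1, Bool.or_true]
    · obtain ⟨s, h1, h2⟩ := ((hev c).and (eventually_ge_atTop z)).exists
      refine ⟨s, h2, ?_⟩
      filter_upwards [LT_ev θ G s] with t ht
      have h3 : LT θ G c s t = false := by
        cases hb : LT θ G c s t with
        | false => rfl
        | true => exact absurd (h1.1 ((ht c).1 hb)) hc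
      unfold Stop
      rw [h3]
      rfl
  refine ⟨hh θ G a, hh_comp θ hG1 ha, hh_mono_right, hh_mono_left, hh_bdd hst, fun g hg => ?_⟩
  obtain ⟨c1, m1, m2, m3⟩ := exists_functional (chr A) g hg
  -- the code whose functional has a long use
  have hpart : Partrec (fun n : ℕ => (eval c1 n).bind fun v =>
      cond (decide (v ≤ ((decode (α := List ℕ) n.unpair.1).getD []).length)) (Part.some v)
        Part.none) := by
    refine Partrec.bind (eval_part.comp (Computable.const c1) Computable.id) ?_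
    have j1 : Computable (fun w : ℕ × ℕ =>
        ((decode (α := List ℕ) w.1.unpair.1).getD []).length) :=
      Computable.list_length.comp ((Primrec.option_getD.comp (Primrec.decode.comp
        (Primrec.fst.comp (Primrec.unpair.comp Primrec.fst))) (Primrec.const [])).to_comp)
    exact Partrec.cond (Computable₂.comp (f := fun x y : ℕ => decide (x ≤ y))
      Primrec.nat_le.decide.to_comp Computable.snd j1) Computable.snd.partrec Partrec.none
  obtain ⟨c2, hc2⟩ := exists_code.1 (Partrec.nat_iff.1 hpart)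
  have key : ∀ (σ : List ℕ) (m v : ℕ), v ∈ eval c2 (encode (σ, m)) ↔
      v ∈ eval c1 (encode (σ, m)) ∧ v ≤ σ.length := by
    intro σ m v
    rw [hc2]
    have e1 : (encode (σ, m)).unpair.1 = encode σ := by simp
    simp only [e1, encodek, Option.getD_some, Part.mem_bind_iff]
    constructor
    · rintro ⟨w, hw, hw'⟩
      by_cases h : w ≤ σ.length
      · rw [decide_eq_true h] at hw'
        have := Part.mem_some_iff.1 hw'
        subst this
        exact ⟨hw, h⟩
      · rw [decide_eq_false h] at hw'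
        exact absurd hw' (Part.notMem_none _)
    · rintro ⟨h1, h2⟩
      refine ⟨v, h1, ?_⟩
      rw [decide_eq_true h2]
      exact Part.mem_some v
  set c : ℕ := encode c2 with hc
  have hcc : Denumerable.ofNat Code c = c2 := by rw [hc]; exact Denumerable.ofNat_encode c2
  have htot : chr (jump (jump A)) (G c) = 0 := by
    refine (hG2 c).2 fun n => ?_
    obtain ⟨k, hk⟩ := m3 n
    refine ⟨max k (g n), Part.dom_iff_mem.2 ⟨g n, ?_⟩⟩
    rw [hcc, key]
    refine ⟨m1 _ _ (seg_prefix _ (le_max_left _ _)) _ _ hk, ?_⟩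
    rw [seg_length]
    exact le_max_right _ _
  obtain ⟨s1, hs1⟩ := eventually_atTop.1 (hev c)
  refine ⟨max s1 c, fun z hz => ?_⟩
  have hz1 : s1 ≤ z := (le_max_left _ _).trans hz
  have hz2 : c ≤ z := (le_max_right _ _).trans hz
  have hns : ∀ᶠ t in atTop, ∀ s ∈ Finset.range (g z + 1), z ≤ s →
      Stop θ G a c z s t = false := by
    rw [Filter.eventually_all_finset]
    intro s hs
    by_cases hzs : z ≤ s
    swap
    · exact Eventually.of_forall fun t h => absurd h hzs
    filter_upwards [LT_ev θ G s, hseg s] with t h1 h2 _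
    have h3 : LT θ G c s t = true := (h1 c).2 ((hs1 s (hz1.trans hzs)).2 htot)
    have h4 : Hlt a c z s t = false := by
      cases hb : Hlt a c z s t with
      | false => rfl
      | true =>
        exfalso
        obtain ⟨k, hk, hk'⟩ := bEx_iff.1 hb
        rw [h2 k hk.le, hcc] at hk'
        obtain ⟨v, hv⟩ := Option.isSome_iff_exists.1 hk'
        obtain ⟨h5, h6⟩ := (key _ _ _).1 (evaln_sound hv)
        have h7 := m2 k z v h5
        rw [seg_length] at h6
        rw [Finset.mem_range] at hs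
        omega
    unfold Stop
    rw [h3, h4]
    rfl
  obtain ⟨t, ht1, ht2⟩ := (hns.and (eventually_ge_atTop (g z + 1))).exists
  refine ⟨t, ?_⟩
  have h1 : g z + 1 ≤ Len θ G a c z t := by
    have h2 : bAll (g z + 1) (fun s' => decide (s' < z) || !(Stop θ G a c z s' t)) = true := by
      refine bAll_iff.2 fun s hs => ?_
      by_cases hzs : s < z
      · rw [decide_eq_true hzs]; rfl
      · rw [ht1 s (Finset.mem_range.2 hs) (not_lt.1 hzs), Bool.not_false, Bool.or_true]
    have h3 := le_bSup (n := t + 1) (f := fun s => cond (bAll s fun s' =>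
      decide (s' < z) || !(Stop θ G a c z s' t)) s 0) (i := g z + 1) (by omega)
    simp only [h2, cond_true] at h3
    exact h3
  have h2 : Len θ G a c z t ≤ hh0 θ G a z t :=
    le_bSup (n := z + 1) (f := fun c => Len θ G a c z t) (i := c) (by omega)
  exact ((Nat.le_succ _).trans h1).trans (h2.trans (hh0_le z t))

end Pool.Agent.Helper88.AC
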