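import Pool.Agent.Helper88.AC.Low

set_option autoImplicit false

namespace Pool.Agent.Helper88.AC

open Encodable Filter
open Nat.Partrec (Code)
open Nat.Partrec.Code
open Pool.Agent.Helper90.Sol

/-- The constructed set. -/
def BB (a : ℕ → List ℕ) (h : ℕ → ℕ → ℕ) (p : ℕ → ℕ) (u : Code) : Set ℕ :=
  {x | ∃ n, Adm a h p u x n}

theorem amono {a : ℕ → List ℕ} (hm : ∀ s, a s ⊆ a (s + 1)) {s t : ℕ} (hst : s ≤ t) :
    a s ⊆ a t := by
  induction hst with
  | refl => exact fun _ h => h
  | step _ ih => exact fun x hx => hm _ (ih hx)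

theorem seg_congr {g g' : ℕ → ℕ} {k : ℕ} (h : ∀ n < k, g n = g' n) : seg g k = seg g' k := by
  unfold seg
  refine List.map_congr_left fun n hn => h n (List.mem_range.1 hn)

theorem seg_take (g : ℕ → ℕ) {k l : ℕ} (h : k ≤ l) : (seg g l).take k = seg g k := by
  unfold seg
  rw [← List.map_take, List.take_range, min_eq_left h]

theorem seg_getD (g : ℕ → ℕ) {k n : ℕ} (h : n < k) : (seg g k).getD n 0 = g n := by
  rw [List.getD_eq_getElem?_getD, seg_getElem?, if_pos h]
  rfl

section

variable {A : Set ℕ} {a : ℕ → List ℕ} {p : ℕ → ℕ} {h : ℕ → ℕ → ℕ} {u : Code}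

theorem adm_y (hAs : ∀ x, x ∈ A ↔ ∃ s, x ∈ a s) {x n : ℕ}
    (hx : Adm a h p u x n) : x.unpair.2.unpair.1 ∈ A ∧ x.unpair.2.unpair.1 ∉ a n ∧
      h x.unpair.2.unpair.1 n ≤ x := by
  obtain ⟨h1, h2, t, -, h4⟩ := hx
  have h5 := cnd_iff.1 (Tm_spec.1 h1).1
  refine ⟨(hAs _).2 ⟨_, h4⟩, h5.2.2, h5.2.1.trans ?_⟩
  rw [h2]
  exact (Nat.unpair_right_le _).trans (Nat.unpair_right_le _)

theorem BB_re {bS : ℕ → ℕ → Bool} (hbS : Computable₂ bS)
    (hbs : ∀ x s, bS x s = true ↔ ∃ n < s, Adm a h p u x n) :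
    REPred (fun n => n ∈ BB a h p u) := by
  have h1 : Partrec (fun x : ℕ => Nat.rfind fun s => Part.some (bS x s)) :=
    Partrec.rfind hbS.partrec
  refine (Partrec.dom_re h1).of_eq fun x => ?_
  rw [Nat.rfind_dom']
  constructor
  · rintro ⟨s, hs, -⟩
    obtain ⟨n, -, hn⟩ := (hbs x s).1 (Part.mem_some_iff.1 hs).symm
    exact ⟨n, hn⟩
  · rintro ⟨n, hn⟩
    exact ⟨n + 1, Part.mem_some_iff.2 ((hbs x (n + 1)).2 ⟨n, Nat.lt_succ_self n, hn⟩).symm,
      fun _ => trivial⟩

theorem BB_not_computable (hAs : ∀ x, x ∈ A ↔ ∃ s, x ∈ a s)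
    (hinf : (Aᶜ).Infinite) (hbdd : ∀ z, ∃ b, ∀ t, h z t ≤ b)
    (hu : ∀ e y, eval (curry u e) y = Tm a h e y)
    (hps : ∀ c : Code, (W c).Infinite → ∃ s x, EntersAt c s x ∧ x ∈ a (p s)) :
    ¬ ComputablePred (fun n => n ∈ BB a h p u) := by
  rintro ⟨hdec, hcomp⟩
  have h1 : Computable (fun x => chr (BB a h p u) x) := by
    refine (Computable.cond hcomp (Computable.const 1) (Computable.const 0)).of_eq fun x => ?_
    by_cases hx : x ∈ BB a h p u
    · rw [chr_of hx]; simp [hx]
    · rw [chr_of_not hx]; simp [hx]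
  obtain ⟨c, hc⟩ := exists_code.1 (Partrec.nat_iff.1 h1)
  have hc' : ∀ x, eval c x = Part.some (chr (BB a h p u) x) := fun x => by rw [hc]; rfl
  set e : ℕ := encode c with he
  have hec : Denumerable.ofNat Code e = c := by rw [he]; exact Denumerable.ofNat_encode c
  have htri : ∀ y j : ℕ, (tri e y j).unpair.1 = e ∧ (tri e y j).unpair.2.unpair.1 = y ∧
      (tri e y j).unpair.2.unpair.2 = j := by
    intro y j
    simp [tri]
  have key : ∀ y, y ∉ A → (Tm a h e y).Dom := by
    intro y hy
    obtain ⟨b, hb⟩ := hbdd y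
    have hj : ∃ j, b ≤ j ∧ tri e y j ∉ BB a h p u := by
      by_contra hcon
      push Not at hcon
      obtain ⟨n1, h1, h2, -⟩ := hcon b le_rfl
      obtain ⟨n2, h3, h4, -⟩ := hcon (b + 1) (Nat.le_succ b)
      rw [(htri y b).1, (htri y b).2.1] at h1
      rw [(htri y (b + 1)).1, (htri y (b + 1)).2.1] at h3
      have h5 := Part.mem_unique h1 h3
      rw [(htri y b).2.2] at h2
      rw [(htri y (b + 1)).2.2] at h4
      rw [h5] at h2
      omega
    obtain ⟨j, hj1, hj2⟩ := hj
    have h2 : (0 : ℕ) ∈ eval c (tri e y j) := by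
      rw [hc', chr_of_not hj2]
      exact Part.mem_some 0
    obtain ⟨k, hk⟩ := evaln_complete.1 h2
    have h3 : cnd a h e y (Nat.pair k j) = true := by
      rw [cnd_iff, hec]
      refine ⟨?_, ?_, fun h4 => hy ((hAs y).2 ⟨_, h4⟩)⟩
      · rw [Nat.unpair_pair]
        exact evaln_mono (Nat.left_le_pair k j) hk
      · rw [Nat.unpair_pair]
        exact (hb _).trans hj1
    exact Tm_dom h3
  have hW : (W (curry u e)).Infinite := by
    refine hinf.mono fun y hy => ?_
    change (eval (curry u e) y).Dom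
    rw [hu]
    exact key y hy
  obtain ⟨t, y, h2, h3⟩ := hps _ hW
  obtain ⟨v, hv⟩ := Option.isSome_iff_exists.1 h2.1
  have h4 : v ∈ Tm a h e y := by
    rw [← hu]
    exact evaln_sound hv
  have h5 : tri e y v.unpair.2 ∈ BB a h p u := by
    refine ⟨v, ?_, ?_, t, ?_, ?_⟩
    · rw [(htri _ _).1, (htri _ _).2.1]; exact h4
    · rw [(htri _ _).2.2]
    · rw [(htri _ _).1, (htri _ _).2.1]; exact h2
    · rw [(htri _ _).2.1]; exact h3
  have h6 := (cnd_iff.1 (Tm_spec.1 h4).1).1
  rw [hec] at h6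
  have h7 : (0 : ℕ) ∈ eval c (tri e y v.unpair.2) := evaln_sound h6
  rw [hc', Part.mem_some_iff] at h7
  exact chr_zero.1 h7.symm h5

theorem BB_red (ha : Computable a) (hmono : ∀ s, a s ⊆ a (s + 1))
    (hAs : ∀ x, x ∈ A ↔ ∃ s, x ∈ a s) {bS : ℕ → ℕ → Bool} (hbS : Computable₂ bS)
    (hbs : ∀ x s, bS x s = true ↔ ∃ n < s, Adm a h p u x n) :
    Red (BB a h p u) A := by
  let Φ : ℕ × ℕ × List ℕ → Option ℕ := fun z =>
    (z.2.2[z.1.unpair.2.unpair.1]?).bind fun v =>
      cond (decide (v = 0)) (some 0)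
        (cond (mem a z.2.1 z.1.unpair.2.unpair.1) (some (bS z.1 z.2.1).toNat) none)
  have hΦ : Computable Φ := by
    have i1 : Computable (fun z : ℕ × ℕ × List ℕ => z.1.unpair.2.unpair.1) :=
      Computable.fst.comp (Computable.unpair.comp (Computable.snd.comp
        (Computable.unpair.comp Computable.fst)))
    have i2 : Computable (fun z : ℕ × ℕ × List ℕ => z.2.1) :=
      Computable.fst.comp Computable.snd
    have i3 : Computable (fun z : ℕ × ℕ × List ℕ => z.2.2[z.1.unpair.2.unpair.1]?) :=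
      Computable.list_getElem?.comp (Computable.snd.comp Computable.snd) i1
    have i4 : Computable (fun z : (ℕ × ℕ × List ℕ) × ℕ => decide (z.2 = 0)) :=
      Computable₂.comp (f := fun b c : ℕ => decide (b = c)) Primrec.eq.decide.to_comp
        Computable.snd (Computable.const 0)
    have i5 : Computable (fun z : (ℕ × ℕ × List ℕ) × ℕ =>
        mem a z.1.2.1 z.1.1.unpair.2.unpair.1) :=
      Computable₂.comp (f := mem a) (mem_comp ha) (i2.comp Computable.fst)
        (i1.comp Computable.fst)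
    have i6 : Computable (fun z : (ℕ × ℕ × List ℕ) × ℕ => bS z.1.1 z.1.2.1) :=
      Computable₂.comp (f := bS) hbS (Computable.fst.comp Computable.fst)
        (i2.comp Computable.fst)
    have i7 : Computable (fun z : (ℕ × ℕ × List ℕ) × ℕ => some (bS z.1.1 z.1.2.1).toNat) := by
      refine Computable.option_some.comp ?_
      refine (Computable.cond i6 (Computable.const 1) (Computable.const 0)).of_eq fun z => ?_
      cases bS z.1.1 z.1.2.1 <;> rfl
    have i8 : Computable₂ (fun (z : ℕ × ℕ × List ℕ) (v : ℕ) => cond (decide (v = 0)) (some 0)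
        (cond (mem a z.2.1 z.1.unpair.2.unpair.1) (some (bS z.1 z.2.1).toNat) none)) :=
      Computable.cond i4 (Computable.const (some 0)) (Computable.cond i5 i7
        (Computable.const none))
    exact Computable.option_bind i3 i8
  refine red_of_search (chr A) Φ hΦ (fun x => ?_) fun x k v hv => ?_
  · set y := x.unpair.2.unpair.1 with hy
    by_cases hyA : y ∈ A
    · obtain ⟨t, ht⟩ := (hAs y).1 hyA
      refine ⟨max t (y + 1), ?_⟩
      have h1 : (seg (chr A) (max t (y + 1)))[y]? = some 1 := by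
        rw [seg_getElem?, if_pos (lt_of_lt_of_le (Nat.lt_succ_self y) (le_max_right _ _)),
          chr_of hyA]
      have h2 : mem a (max t (y + 1)) y = true :=
        mem_iff.2 (amono hmono (le_max_left _ _) ht)
      simp only [Φ, ← hy, h1, h2]
      rfl
    · refine ⟨y + 1, ?_⟩
      have h1 : (seg (chr A) (y + 1))[y]? = some 0 := by
        rw [seg_getElem?, if_pos (Nat.lt_succ_self y), chr_of_not hyA]
      simp only [Φ, ← hy, h1]
      rfl
  · set y := x.unpair.2.unpair.1 with hy
    simp only [Φ, ← hy, Option.bind_eq_some_iff] at hv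
    obtain ⟨w, hw1, hw2⟩ := hv
    rw [seg_getElem?] at hw1
    split_ifs at hw1 with hlt
    have hw3 : chr A y = w := Option.some.inj hw1
    by_cases hw0 : w = 0
    · subst hw0
      rw [decide_eq_true rfl] at hw2
      have hv0 : v = 0 := (Option.some.inj hw2).symm
      rw [hv0]
      refine (chr_of_not ?_).symm
      rintro ⟨n, hn⟩
      exact chr_zero.1 hw3 (adm_y hAs hn).1
    · rw [decide_eq_false hw0] at hw2
      cases hm : mem a k y with
      | false => rw [hm] at hw2; exact absurd hw2 (by simp)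
      | true =>
        rw [hm] at hw2
        have hv0 : (bS x k).toNat = v := Option.some.inj hw2
        rw [← hv0]
        by_cases hx : x ∈ BB a h p u
        · rw [chr_of hx]
          obtain ⟨n, hn⟩ := hx
          have hnk : n < k := by
            by_contra hcon
            exact (adm_y hAs hn).2.1 (amono hmono (not_lt.1 hcon) (mem_iff.1 hm))
          rw [(hbs x k).2 ⟨n, hnk, hn⟩]
          rfl
        · rw [chr_of_not hx]
          have : bS x k = false := by
            cases hb : bS x k with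
            | false => rfl
            | true =>
              obtain ⟨n, -, hn⟩ := (hbs x k).1 hb
              exact absurd ⟨n, hn⟩ hx
          rw [this]
          rfl

end

end Pool.Agent.Helper88.AC
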